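import Pool.Agent.Helper79.HG.Erase

/-!
# BLOCK HG-3: the connected sum of two triangulated spheres

* `glue`: let `T, a, b, c` and `T', a', b', c'` realize `h`, `h'`.  Let `s` be larger than all
  elements of `verts T` and than `a, b, c` (and `a', b', c'`); the map `g` with `a' ↦ a`, `b' ↦ b`,
  `c' ↦ c`, `v ↦ v + s` otherwise is injective.  Put `f = {a, b, c}`, `N = (relabel g T').erase f`,
  `W = verts (relabel g T') \ f` and apply `plug_isSphere` of HX/Plug.lean (its hypothesis on the
  connectedness of `N` is `conn_erase`); the degrees are given by `plug_deg`, `relabel_deg`.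
-/

namespace Pool.Agent.Helper79.HG

open Finset Pool.Agent.Helper79.HX

section erase
variable {S : Finset (Finset ℕ)} {f : Finset ℕ} (hS : IsSphere S) (hf : f ∈ S)

include hS hf in
private theorem er3 : ∀ e ∈ f.powersetCard 2,
    ((S.erase f).filter (fun s => e ⊆ s)).card = 1 := by
  intro e he
  obtain ⟨h1, h2⟩ := Finset.mem_powersetCard.1 he
  rw [Finset.filter_erase, Finset.card_erase_of_mem (Finset.mem_filter.2 ⟨hf, h1⟩),
    hS.edge f hf e h1 h2]

include hS in
private theorem er2 : ∀ t ∈ S.erase f, ∀ e ∈ t.powersetCard 2, ¬ e ⊆ f →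
    ((S.erase f).filter (fun s => e ⊆ s)).card = 2 ∧ ∃ v ∈ e, v ∈ verts S \ f := by
  intro t ht e he hef
  obtain ⟨h1, h2⟩ := Finset.mem_powersetCard.1 he
  have htS := Finset.mem_of_mem_erase ht
  constructor
  · rw [Finset.filter_erase, Finset.erase_eq_of_notMem, hS.edge t htS e h1 h2]
    intro h
    exact hef (Finset.mem_filter.1 h).2
  · obtain ⟨v, hv, hvf⟩ := Finset.not_subset.1 hef
    exact ⟨v, hv, Finset.mem_sdiff.2 ⟨mem_verts.2 ⟨t, htS, h1 hv⟩, hvf⟩⟩

include hS hf in
private theorem er7 : ∀ t ∈ S.erase f, ∃ v ∈ t, v ∈ verts S \ f := by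
  intro t ht
  obtain ⟨hne, htS⟩ := Finset.mem_erase.1 ht
  have h : ¬ t ⊆ f := by
    intro h
    exact hne (Finset.eq_of_subset_of_card_le h (by rw [hS.tri t htS, hS.tri f hf]))
  obtain ⟨v, hv, hvf⟩ := Finset.not_subset.1 h
  exact ⟨v, hv, Finset.mem_sdiff.2 ⟨mem_verts.2 ⟨t, htS, hv⟩, hvf⟩⟩

include hS hf in
private theorem er5 : verts (S.erase f) = f ∪ (verts S \ f) := by
  have hfv : f ⊆ verts S := fun v hv => mem_verts.2 ⟨f, hf, hv⟩
  rw [Finset.union_sdiff_of_subset hfv]
  apply Finset.Subset.antisymm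
  · intro v hv
    obtain ⟨t, ht, hvt⟩ := mem_verts.1 hv
    exact mem_verts.2 ⟨t, Finset.mem_of_mem_erase ht, hvt⟩
  · intro v hv
    obtain ⟨t, ht, hvt⟩ := mem_verts.1 hv
    by_cases htf : t = f
    · subst htf
      -- an edge of `f` at `v`
      obtain ⟨w, hw⟩ : (t.erase v).Nonempty := by
        rw [← Finset.card_pos, Finset.card_erase_of_mem hvt, hS.tri t hf]
        norm_num
      obtain ⟨hwv, hwt⟩ := Finset.mem_erase.1 hw
      have he : ({v, w} : Finset ℕ) ∈ t.powersetCard 2 := by
        rw [Finset.mem_powersetCard]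
        refine ⟨?_, Finset.card_pair hwv.symm⟩
        intro x hx
        simp only [Finset.mem_insert, Finset.mem_singleton] at hx
        rcases hx with rfl | rfl
        · exact hvt
        · exact hwt
      have h1 := er3 hS hf _ he
      obtain ⟨n, hn⟩ : ((S.erase t).filter (fun s => ({v, w} : Finset ℕ) ⊆ s)).Nonempty := by
        rw [← Finset.card_pos, h1]
        norm_num
      obtain ⟨hn1, hn2⟩ := Finset.mem_filter.1 hn
      exact mem_verts.2 ⟨n, hn1, hn2 (by simp)⟩
    · exact mem_verts.2 ⟨t, Finset.mem_erase.2 ⟨htf, ht⟩, hvt⟩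

include hS hf in
private theorem er6 : 2 * (verts S \ f).card + 1 = (S.erase f).card := by
  have hfv : f ⊆ verts S := fun v hv => mem_verts.2 ⟨f, hf, hv⟩
  have h1 := Finset.card_sdiff_add_card_eq_card hfv
  have h2 := Finset.card_erase_add_one hf
  have h3 := hS.euler
  have h4 := hS.tri f hf
  omega

end erase

private theorem deg_erase {S : Finset (Finset ℕ)} {f : Finset ℕ} (hf : f ∈ S) (v : ℕ) :
    deg (S.erase f) v + (if v ∈ f then 1 else 0) = deg S v := by
  unfold deg
  rw [Finset.filter_erase]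
  split_ifs with h
  · exact Finset.card_erase_add_one (Finset.mem_filter.2 ⟨hf, h⟩)
  · rw [Finset.erase_eq_of_notMem (s := S.filter (fun t => v ∈ t))
      (fun h1 => h (Finset.mem_filter.1 h1).2), add_zero]

private theorem deg_zero {S : Finset (Finset ℕ)} {v : ℕ} (h : v ∉ verts S) : deg S v = 0 := by
  rw [deg, Finset.card_eq_zero, Finset.filter_eq_empty_iff]
  intro t ht hv
  exact h (mem_verts.2 ⟨t, ht, hv⟩)

theorem glue {z x y z' x' y' : ℕ} {M M' : Multiset ℕ} (h : Conf z x y M)
    (h' : Conf z' x' y' M') : Fin' (M + M' + {z + z' - 2, x + x' - 2, y + y' - 2}) := by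
  obtain ⟨T, a, b, c, hS, hab, hac, hbc, hT, ha, hb, hc, hM⟩ := h
  obtain ⟨T', a', b', c', hS', hab', hac', hbc', hT', ha', hb', hc', hM'⟩ := h'
  obtain ⟨s, hs⟩ : ∃ s, ∀ v ∈ verts T, v < s :=
    ⟨(verts T).sup id + 1, fun v hv => Nat.lt_succ_of_le (Finset.le_sup (f := id) hv)⟩
  obtain ⟨va, vb, vc⟩ := mem_of_tri hT
  obtain ⟨g, hg⟩ : ∃ g : ℕ → ℕ, g = fun v => if v = a' then a else if v = b' then b else
      if v = c' then c else v + s := ⟨_, rfl⟩
  have ga : g a' = a := by rw [hg]; simp
  have gb : g b' = b := by rw [hg]; simp [hab'.symm]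
  have gc : g c' = c := by rw [hg]; simp [hac'.symm, hbc'.symm]
  have gv : ∀ v, v ≠ a' → v ≠ b' → v ≠ c' → g v = v + s := by
    intro v h1 h2 h3
    rw [hg]
    simp [h1, h2, h3]
  have hinj : Function.Injective g := by
    intro u v huv
    have h1 := hs a va
    have h2 := hs b vb
    have h3 := hs c vc
    rw [hg] at huv
    simp only at huv
    split_ifs at huv <;> omega
  obtain ⟨S, hSdef⟩ : ∃ S, S = relabel g T' := ⟨_, rfl⟩
  obtain ⟨f, hfdef⟩ : ∃ f : Finset ℕ, f = {a, b, c} := ⟨_, rfl⟩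
  have hSS : IsSphere S := hSdef ▸ relabel_isSphere hinj hS'
  have hfg : f = ({a', b', c'} : Finset ℕ).image g := by
    rw [hfdef, Finset.image_insert, Finset.image_insert, Finset.image_singleton, ga, gb, gc]
  have hfS : f ∈ S := by
    rw [hfg, hSdef]
    exact Finset.mem_image_of_mem _ hT'
  have hfT : f ∈ T := hfdef ▸ hT
  have hWim : verts S \ f = (verts T' \ {a', b', c'}).image g := by
    rw [hSdef, relabel_verts, hfg, Finset.image_sdiff _ _ hinj]
  have hW : Disjoint (verts S \ f) (verts T) := by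
    rw [hWim, Finset.disjoint_left]
    intro v hv hvT
    obtain ⟨u, hu, rfl⟩ := Finset.mem_image.1 hv
    simp only [Finset.mem_sdiff, Finset.mem_insert, Finset.mem_singleton, not_or] at hu
    obtain ⟨-, h1, h2, h3⟩ := hu
    have h4 := hs _ hvT
    rw [gv u h1 h2 h3] at h4
    omega
  have h7 := er7 hSS hfS
  have h5 := er5 hSS hfS
  refine ⟨T.erase f ∪ S.erase f, plug_isSphere hS hfT hW
    (fun t ht => hSS.tri t (Finset.mem_of_mem_erase ht)) (er2 hSS) (er3 hSS hfS)
    (conn_erase hSS hfS) h5 (er6 hSS hfS) h7, ?_⟩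
  have hV : verts (T.erase f ∪ S.erase f) = (f ∪ (verts T \ f)) ∪ (verts S \ f) := by
    rw [plug_verts hfT h5, Finset.union_sdiff_of_subset (fun v hv => mem_verts.2 ⟨f, hfT, hv⟩)]
  have hd : ∀ v, deg (T.erase f ∪ S.erase f) v + (if v ∈ f then 1 else 0) =
      deg T v + deg (S.erase f) v := plug_deg hfT hW h7
  have hdS : ∀ v, deg S (g v) = deg T' v := fun v => by rw [hSdef, relabel_deg hinj]
  have hd1 : Disjoint f (verts T \ f) := Finset.disjoint_sdiff
  have hd2 : Disjoint (f ∪ (verts T \ f)) (verts S \ f) := by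
    rw [Finset.union_sdiff_of_subset (fun v hv => mem_verts.2 ⟨f, hfT, hv⟩)]
    exact hW.symm
  have hval : (verts (T.erase f ∪ S.erase f)).val =
      f.val + (verts T \ f).val + (verts S \ f).val := by
    rw [hV, ← Finset.disjUnion_eq_union _ _ hd2, Finset.disjUnion_val,
      ← Finset.disjUnion_eq_union _ _ hd1, Finset.disjUnion_val]
  rw [hval, Multiset.map_add, Multiset.map_add]
  -- the old vertices
  have e1 : (verts T \ f).val.map (deg (T.erase f ∪ S.erase f)) = M := by
    rw [← hM, hfdef]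
    apply Multiset.map_congr rfl
    intro v hv
    have hv' : v ∈ verts T \ {a, b, c} := hv
    rw [← hfdef] at hv' ⊢
    obtain ⟨h1, h2⟩ := Finset.mem_sdiff.1 hv'
    have h3 := hd v
    rw [if_neg h2, deg_zero (S := S.erase f) (v := v) (by
      rw [h5, Finset.mem_union, not_or]
      exact ⟨h2, fun h => Finset.disjoint_left.1 hW h h1⟩)] at h3
    exact h3
  -- the new vertices
  have e2 : (verts S \ f).val.map (deg (T.erase f ∪ S.erase f)) = M' := by
    rw [hWim, Finset.image_val_of_injOn hinj.injOn, Multiset.map_map, ← hM']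
    apply Multiset.map_congr rfl
    intro v hv
    have hv' : v ∈ verts T' \ {a', b', c'} := hv
    have hgv : g v ∈ verts S \ f := by
      rw [hWim]
      exact Finset.mem_image_of_mem _ hv'
    have h1 : g v ∉ f := (Finset.mem_sdiff.1 hgv).2
    have h2 : g v ∉ verts T := Finset.disjoint_left.1 hW hgv
    have h3 := hd (g v)
    have h4 := deg_erase hfS (g v)
    rw [if_neg h1] at h3 h4
    rw [deg_zero h2] at h3
    rw [hdS] at h4
    show deg (T.erase f ∪ S.erase f) (g v) = deg T' v
    omega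
  have key : ∀ u u', g u' = u → u ∈ f →
      deg (T.erase f ∪ S.erase f) u = deg T u + deg T' u' - 2 := by
    intro u u' hu huf
    have h3 := hd u
    have h4 := deg_erase hfS u
    rw [if_pos huf] at h3 h4
    rw [← hu, hdS, hu] at h4
    omega
  have e3 : f.val.map (deg (T.erase f ∪ S.erase f)) =
      {z + z' - 2, x + x' - 2, y + y' - 2} := by
    have k1 := key a a' ga (by rw [hfdef]; simp)
    have k2 := key b b' gb (by rw [hfdef]; simp)
    have k3 := key c c' gc (by rw [hfdef]; simp)
    rw [ha, ha'] at k1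
    rw [hb, hb'] at k2
    rw [hc, hc'] at k3
    have hfv : f.val = a ::ₘ b ::ₘ {c} := by
      rw [hfdef, Finset.insert_val_of_notMem (by simp [hab, hac]),
        Finset.insert_val_of_notMem (by simp [hbc]), Finset.singleton_val]
    rw [hfv, Multiset.map_cons, Multiset.map_cons, Multiset.map_singleton, k1, k2, k3]
    rfl
  rw [e1, e2, e3, add_assoc, add_comm]

end Pool.Agent.Helper79.HG
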