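import Pool.Agent.Helper79.HG.Grow

/-!
# Spheres with the face degrees 4, 5, 4, seven vertices of degree 5 and any number `≥ 10` of
vertices of degree 6
-/

namespace Pool.Agent.Helper79.HG

open Finset Pool.Agent.Helper79.HX

set_option maxRecDepth 100000 in
theorem seed_deg : deg seed 13 = 4 ∧ deg seed 14 = 5 ∧ deg seed 15 = 4 ∧ deg seed 0 = 5 ∧
    deg seed 1 = 6 ∧ deg seed 2 = 6 ∧ deg seed 3 = 6 ∧ deg seed 4 = 6 ∧ deg seed 5 = 6 ∧
    (∀ i ∈ inn, deg seed i = deg cap1 i) := by
  unfold deg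
  decide

set_option maxRecDepth 100000 in
theorem seed_cap : cap1 ⊆ seed := by decide

set_option maxRecDepth 100000 in
theorem seed_verts : verts seed \ (range 13 ∪ {13, 14, 15}) = {16, 17, 18, 19} := by decide

set_option maxRecDepth 100000 in
theorem seed_rest : ({16, 17, 18, 19} : Finset ℕ).val.map (deg seed) = {6, 6, 6, 6} := by
  unfold deg
  decide

theorem grow_seed : Grow 5 6 6 6 6 6 4 5 4 {6, 6, 6, 6} := by
  obtain ⟨h1, h2, h3, h4, h5, h6, h7, h8, h9, h10⟩ := seed_deg
  exact ⟨seed, 13, 14, 15, seed_sphere, seed_cap, by omega, by omega, by omega, by omega, by omega,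
    by omega, by decide, h1, h2, h3, h4, h5, h6, h7, h8, h9, h10, by
      rw [seed_verts, seed_rest]⟩

theorem grow_all (k : ℕ) : ∃ d0 d1 d2 d3 d4 d5 M, Grow d0 d1 d2 d3 d4 d5 4 5 4 M ∧
    ({d0, d1, d2, d3, d4, d5} : Multiset ℕ) + M = 5 ::ₘ Multiset.replicate (9 + k) 6 := by
  induction k with
  | zero => exact ⟨_, _, _, _, _, _, _, grow_seed, by decide⟩
  | succ k ih =>
    obtain ⟨d0, d1, d2, d3, d4, d5, M, h, e⟩ := ih
    refine ⟨6, d0, d1, d2, d3, d4, d5 ::ₘ M, h.step, ?_⟩
    rw [← Nat.add_assoc, Multiset.replicate_succ, Multiset.cons_swap, ← e]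
    ext j
    simp only [Multiset.insert_eq_cons, Multiset.count_add, Multiset.count_cons,
      Multiset.count_singleton]
    omega

theorem Grow.conf {d0 d1 d2 d3 d4 d5 z x y : ℕ} {M : Multiset ℕ}
    (h : Grow d0 d1 d2 d3 d4 d5 z x y M) :
    Conf z x y ({d0, d1, d2, d3, d4, d5} + M + {5, 6, 5, 5, 5, 5, 5}) := by
  obtain ⟨T, a, b, c, hS, hC, ha, hb, hc, hab, hac, hbc, hT, da, db, dc, e0, e1, e2, e3, e4, e5,
    hin, hM⟩ := h
  refine ⟨T, a, b, c, hS, hab, hac, hbc, hT, da, db, dc, ?_⟩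
  have hr : range 13 ⊆ verts T := by
    intro v hv
    rw [← cap_verts] at hv
    obtain ⟨t, ht, hv⟩ := mem_verts.1 hv
    exact mem_verts.2 ⟨t, hC ht, hv⟩
  have hV : verts T \ {a, b, c} = (({0, 1, 2, 3, 4, 5} : Finset ℕ) ∪ inn) ∪
      (verts T \ (range 13 ∪ {a, b, c})) := by
    ext v
    simp only [Finset.mem_sdiff, Finset.mem_union, Finset.mem_insert, Finset.mem_singleton,
      Finset.mem_range, mem_inn, not_or, not_lt]
    constructor
    · rintro ⟨h1, h2, h3, h4⟩
      rcases (by omega : v < 6 ∨ (6 ≤ v ∧ v < 13) ∨ 13 ≤ v) with h | h | h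
      · left; left; omega
      · left; right; exact h
      · right; exact ⟨h1, h, h2, h3, h4⟩
    · rintro ((h | h) | ⟨h1, h, h2, h3, h4⟩)
      · exact ⟨hr (Finset.mem_range.2 (by omega)), by omega, by omega, by omega⟩
      · exact ⟨hr (Finset.mem_range.2 (by omega)), by omega, by omega, by omega⟩
      · exact ⟨h1, h2, h3, h4⟩
  have hd1 : Disjoint ({0, 1, 2, 3, 4, 5} : Finset ℕ) inn := by decide
  have hd2 : Disjoint (({0, 1, 2, 3, 4, 5} : Finset ℕ) ∪ inn)
      (verts T \ (range 13 ∪ {a, b, c})) := by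
    rw [Finset.disjoint_left]
    intro v hv hv'
    refine (Finset.mem_sdiff.1 hv').2 (Finset.mem_union_left _ (Finset.mem_range.2 ?_))
    rcases Finset.mem_union.1 hv with h | h
    · simp only [Finset.mem_insert, Finset.mem_singleton] at h
      omega
    · exact (mem_inn.1 h).2
  have u1 : verts T \ {a, b, c} = ((({0, 1, 2, 3, 4, 5} : Finset ℕ).disjUnion inn hd1).disjUnion
      (verts T \ (range 13 ∪ {a, b, c})) (by rwa [Finset.disjUnion_eq_union])) := by
    rw [Finset.disjUnion_eq_union, Finset.disjUnion_eq_union, hV]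
  rw [u1]
  change Multiset.map (deg T) ((({0, 1, 2, 3, 4, 5} : Finset ℕ).val + inn.val) +
    (verts T \ (range 13 ∪ {a, b, c})).val) = _
  rw [Multiset.map_add, Multiset.map_add, hM]
  have i1 : Multiset.map (deg T) inn.val = {5, 6, 5, 5, 5, 5, 5} := by
    rw [← inn_deg]
    exact Multiset.map_congr rfl (fun v hv => hin v hv)
  have i2 : Multiset.map (deg T) ({0, 1, 2, 3, 4, 5} : Finset ℕ).val = {d0, d1, d2, d3, d4, d5} := by
    have : ({0, 1, 2, 3, 4, 5} : Finset ℕ).val = ({0, 1, 2, 3, 4, 5} : Multiset ℕ) := by decide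
    rw [this]
    simp only [Multiset.insert_eq_cons, Multiset.map_cons, Multiset.map_singleton, e0, e1, e2, e3,
      e4, e5]
  rw [i1, i2]
  exact add_right_comm _ _ _

/-- The end pieces. -/
theorem seeds (k : ℕ) : Conf 4 5 4 (Multiset.replicate 7 5 + Multiset.replicate (10 + k) 6) := by
  obtain ⟨d0, d1, d2, d3, d4, d5, M, h, e⟩ := grow_all k
  refine h.conf.congr ?_
  intro j
  rw [e]
  have : Multiset.replicate (10 + k) 6 = 6 ::ₘ Multiset.replicate (9 + k) 6 := by
    rw [show 10 + k = 9 + k + 1 by omega, Multiset.replicate_succ]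
  rw [this]
  simp only [Multiset.insert_eq_cons, Multiset.count_add, Multiset.count_cons,
    Multiset.count_singleton, Multiset.replicate_succ, Multiset.replicate_zero,
    Multiset.count_zero]
  omega

end Pool.Agent.Helper79.HG
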