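import Pool.Agent.Helper79.HG.Core

/-!
# The end piece with any number `≥ 3` of hexagons and no large face
-/

namespace Pool.Agent.Helper79.HG

open Finset Pool.Agent.Helper79.HX

/-- core: 6, inner faces ; 3 hexagons -/
def c1h3L : List (Finset ℕ) :=
  [{0, 1, 2}, {0, 9, 12}, {0, 1, 12}, {1, 11, 12}, {10, 11, 12}, {9, 10, 12}, {8, 10, 11}, {1,
   3, 11}, {3, 8, 11}, {7, 8, 10}, {7, 9, 10}, {5, 7, 9}, {0, 5, 9}, {6, 7, 8}, {3, 6, 8}, {5,
   6, 7}, {3, 4, 6}, {4, 5, 6}, {0, 4, 5}, {0, 2, 4}, {2, 3, 4}, {1, 2, 3}]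

set_option maxRecDepth 100000 in
theorem c1h3_sph : IsSphere c1h3L.toFinset :=
  sphere_of (by decide) (by decide) (by decide) (by decide) (by decide)

set_option maxRecDepth 100000 in
theorem c1h3_conf : Conf 6 5 4 (Multiset.replicate 9 5 + Multiset.replicate 1 6) := by
  refine ⟨c1h3L.toFinset, 0, 1, 2, c1h3_sph, ?_⟩
  unfold deg
  decide

theorem c1h3_core : CoreG 6 0 3 :=
  core_of c1h3_conf 9 (by decide)

/-- core: 6, inner faces ; 4 hexagons -/
def c1h4L : List (Finset ℕ) :=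
  [{0, 1, 2}, {0, 10, 13}, {0, 6, 13}, {6, 12, 13}, {11, 12, 13}, {10, 11, 13}, {9, 11, 12}, {5,
   6, 12}, {5, 9, 12}, {8, 9, 11}, {8, 10, 11}, {4, 8, 10}, {0, 4, 10}, {7, 8, 9}, {5, 7, 9},
   {4, 7, 8}, {3, 5, 7}, {3, 4, 7}, {0, 1, 6}, {1, 5, 6}, {1, 3, 5}, {0, 2, 4}, {2, 3, 4}, {1,
   2, 3}]

set_option maxRecDepth 100000 in
theorem c1h4_sph : IsSphere c1h4L.toFinset :=
  sphere_of (by decide) (by decide) (by decide) (by decide) (by decide)

set_option maxRecDepth 100000 in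
theorem c1h4_conf : Conf 6 5 4 (Multiset.replicate 9 5 + Multiset.replicate 2 6) := by
  refine ⟨c1h4L.toFinset, 0, 1, 2, c1h4_sph, ?_⟩
  unfold deg
  decide

theorem c1h4_core : CoreG 6 0 4 :=
  core_of c1h4_conf 9 (by decide)

/-- core: 6, inner faces ; 5 hexagons -/
def c1h5L : List (Finset ℕ) :=
  [{0, 1, 2}, {4, 11, 14}, {0, 4, 14}, {0, 13, 14}, {12, 13, 14}, {11, 12, 14}, {10, 12, 13},
   {0, 6, 13}, {6, 10, 13}, {9, 10, 12}, {9, 11, 12}, {7, 9, 11}, {4, 7, 11}, {8, 9, 10}, {6, 8,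
   10}, {7, 8, 9}, {5, 6, 8}, {5, 7, 8}, {3, 4, 7}, {3, 5, 7}, {0, 1, 6}, {1, 5, 6}, {1, 3, 5},
   {0, 2, 4}, {2, 3, 4}, {1, 2, 3}]

set_option maxRecDepth 100000 in
theorem c1h5_sph : IsSphere c1h5L.toFinset :=
  sphere_of (by decide) (by decide) (by decide) (by decide) (by decide)

set_option maxRecDepth 100000 in
theorem c1h5_conf : Conf 6 5 4 (Multiset.replicate 9 5 + Multiset.replicate 3 6) := by
  refine ⟨c1h5L.toFinset, 0, 1, 2, c1h5_sph, ?_⟩
  unfold deg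
  decide

theorem c1h5_core : CoreG 6 0 5 :=
  core_of c1h5_conf 9 (by decide)

/-- the base of the growth: six hexagons -/
def c1gL : List (Finset ℕ) :=
  [{13, 14, 15}, {9, 10, 12}, {7, 9, 10}, {7, 8, 10}, {8, 10, 11}, {10, 11, 12}, {2, 8, 11}, {3,
   7, 8}, {2, 3, 8}, {1, 2, 11}, {1, 11, 12}, {0, 1, 12}, {0, 9, 12}, {1, 2, 13}, {2, 3, 13},
   {3, 4, 7}, {3, 4, 13}, {6, 7, 9}, {0, 6, 9}, {4, 6, 7}, {0, 5, 6}, {4, 5, 6}, {1, 13, 14},
   {0, 1, 14}, {0, 5, 14}, {4, 13, 15}, {4, 5, 15}, {5, 14, 15}]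

set_option maxRecDepth 100000 in
theorem c1g_sph : IsSphere c1gL.toFinset :=
  sphere_of (by decide) (by decide) (by decide) (by decide) (by decide)

set_option maxRecDepth 100000 in
theorem c1g_grow : Grow 6 6 5 5 6 5 6 5 4 0 := by
  refine ⟨c1gL.toFinset, 13, 14, 15, c1g_sph, by decide, by omega, by omega, by omega, by omega,
    by omega, by omega, by decide, ?_⟩
  unfold deg
  decide

theorem c1g_all (k : ℕ) : ∃ d0 d1 d2 d3 d4 d5 M, Grow d0 d1 d2 d3 d4 d5 6 5 4 M ∧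
    ({d0, d1, d2, d3, d4, d5} : Multiset ℕ) + M = Multiset.replicate 3 5 + Multiset.replicate (3 + k) 6 := by
  induction k with
  | zero => exact ⟨_, _, _, _, _, _, _, c1g_grow, by decide⟩
  | succ k ih =>
    obtain ⟨d0, d1, d2, d3, d4, d5, M, h, e⟩ := ih
    refine ⟨6, d0, d1, d2, d3, d4, d5 ::ₘ M, h.step, ?_⟩
    rw [← Nat.add_assoc, Multiset.replicate_succ 6 (3 + k),
      Multiset.add_cons 6 (Multiset.replicate 3 5), ← e]
    ext j
    simp only [Multiset.insert_eq_cons, Multiset.count_add, Multiset.count_cons,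
      Multiset.count_singleton]
    omega

/-- The end piece: any number `h ≥ 3` of hexagons, no large face. -/
theorem c1_core (h : ℕ) (hh : 3 ≤ h) : CoreG 6 0 h := by
  rcases (by omega : h = 3 ∨ h = 4 ∨ h = 5 ∨ 6 ≤ h) with rfl | rfl | rfl | h6
  · exact c1h3_core
  · exact c1h4_core
  · exact c1h5_core
  · obtain ⟨k, rfl⟩ : ∃ k, h = 6 + k := ⟨h - 6, by omega⟩
    obtain ⟨d0, d1, d2, d3, d4, d5, M, hg, e⟩ := c1g_all k
    refine core_of hg.conf 9 ?_
    rw [e]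
    ext j
    simp only [Multiset.insert_eq_cons, Multiset.count_add, Multiset.count_cons,
      Multiset.count_singleton, Multiset.count_replicate, Multiset.count_zero]
    split_ifs <;> omega

end Pool.Agent.Helper79.HG
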