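import Pool.Agent.Helper79.HG.Lit3
import Pool.Agent.Helper79.HG.Glue
import Pool.Agent.Helper79.HG.Seed

/-!
# Cores: end pieces for a chain of large faces (no triangles and quadrangles)
-/

namespace Pool.Agent.Helper79.HG

open Finset Pool.Agent.Helper79.HX

/-- There is a sphere with the faces `L`, `n` hexagons and pentagons. -/
def Good (L : Multiset ℕ) (n : ℕ) : Prop :=
  ∃ p, Fin' (Multiset.replicate p 5 + Multiset.replicate n 6 + L)

/-- An end piece at a face which gets `g` neighbours there (`g + 2` at the start, `g - 2` at the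
end); `A` are the large faces inside, `h` is the number of hexagons. -/
def CoreG (g : ℕ) (A : Multiset ℕ) (h : ℕ) : Prop :=
  ∃ p a b M, Conf g a b M ∧
    (a + 1) ::ₘ (b + 2) ::ₘ M = Multiset.replicate p 5 + Multiset.replicate h 6 + A

theorem core_of {g a b : ℕ} {M A : Multiset ℕ} {h : ℕ} (hc : Conf g a b M) (p : ℕ)
    (e : (a + 1) ::ₘ (b + 2) ::ₘ M = Multiset.replicate p 5 + Multiset.replicate h 6 + A) :
    CoreG g A h := ⟨p, a, b, M, hc, e⟩

theorem CoreG.start {g : ℕ} {A : Multiset ℕ} {h : ℕ} (hc : CoreG g A h) :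
    ∃ p, Conf (g + 2) 3 4 (Multiset.replicate p 5 + Multiset.replicate h 6 + A) := by
  obtain ⟨p, a, b, M, hc, e⟩ := hc
  refine ⟨p, ?_⟩
  rw [← e]
  have h1 : Conf (g + 2) 3 4 ((b + 2) ::ₘ (a + 1) ::ₘ M) := hc.move1.swap.move1
  rwa [Multiset.cons_swap]

theorem CoreG.fin {g z : ℕ} {A N : Multiset ℕ} {h : ℕ} (hc : CoreG g A h) (hg : 2 ≤ g)
    (hz : Conf z 3 4 N) : ∃ p, Fin' (Multiset.replicate p 5 + Multiset.replicate h 6 + A + N +
      {z + (g - 2)}) := by
  obtain ⟨p, a, b, M, hc, e⟩ := hc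
  refine ⟨p, ?_⟩
  rw [← e]
  refine (glue hz hc).congr ?_
  intro j
  have e1 : z + g - 2 = z + (g - 2) := by omega
  have e2 : 3 + a - 2 = a + 1 := by omega
  have e3 : 4 + b - 2 = b + 2 := by omega
  rw [e1, e2, e3]
  simp only [Multiset.insert_eq_cons, Multiset.count_add, Multiset.count_cons,
    Multiset.count_singleton]
  omega

/-- the chain -/
def Chain (L : Multiset ℕ) (n : ℕ) : Prop :=
  ∃ p, Conf 5 3 4 (Multiset.replicate p 5 + Multiset.replicate n 6 + L)

theorem Chain.add {L : Multiset ℕ} {n D : ℕ} (h : Chain L n) (hD : 6 ≤ D) :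
    Chain (D ::ₘ L) n := by
  obtain ⟨p, h⟩ := h
  obtain ⟨p', h'⟩ := h.close hD
  refine ⟨p + p', h'.congr ?_⟩
  intro j
  simp only [Multiset.count_add, Multiset.count_cons, Multiset.count_singleton,
    Multiset.count_replicate]
  split_ifs <;> omega

theorem Chain.tube {L : Multiset ℕ} {n : ℕ} (h : Chain L n) (k : ℕ) : Chain L (n + k) := by
  induction k with
  | zero => exact h
  | succ k ih =>
    obtain ⟨p, h⟩ := ih.add (le_refl 6)
    refine ⟨p, h.congr ?_⟩
    intro j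
    simp only [Multiset.count_add, Multiset.count_cons, Multiset.count_replicate]
    split_ifs <;> omega

theorem Chain.adds {L : Multiset ℕ} {n : ℕ} (h : Chain L n) (L' : Multiset ℕ)
    (hL : ∀ c ∈ L', 6 ≤ c) : Chain (L' + L) n := by
  induction L' using Multiset.induction_on with
  | empty => simpa using h
  | cons c L' ih =>
    rw [Multiset.cons_add]
    exact (ih (fun c' h => hL c' (Multiset.mem_cons_of_mem h))).add (hL c (by simp))

/-- two end pieces at different faces -/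
theorem two {g1 g2 h1 h2 D1 D2 k : ℕ} {A1 A2 L : Multiset ℕ} (c1 : CoreG g1 A1 h1)
    (c2 : CoreG g2 A2 h2) (hg2 : 2 ≤ g2) (hD1 : g1 + 3 ≤ D1) (hD2 : g2 + 3 ≤ D2)
    (hL : ∀ c ∈ L, 6 ≤ c) : Good (D1 ::ₘ D2 ::ₘ (A1 + A2 + L)) (h1 + h2 + k) := by
  obtain ⟨p1, s1⟩ := c1.start
  have s2 : Chain (D1 ::ₘ A1) h1 := by
    obtain ⟨p', h'⟩ := s1.close (k := D1) (by omega)
    refine ⟨p1 + p', h'.congr ?_⟩
    intro j
    simp only [Multiset.count_add, Multiset.count_cons, Multiset.count_singleton,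
      Multiset.count_replicate]
    split_ifs <;> omega
  obtain ⟨p3, s3⟩ := (s2.tube k).adds L hL
  obtain ⟨p4, s4⟩ := c2.fin hg2 (s3.grow (D2 - g2 - 3))
  refine ⟨p4 + p3 + (D2 - g2 - 3), s4.congr ?_⟩
  intro j
  have e1 : 5 + (D2 - g2 - 3) + (g2 - 2) = D2 := by omega
  rw [e1]
  simp only [Multiset.count_add, Multiset.count_cons, Multiset.count_singleton,
    Multiset.count_replicate]
  split_ifs <;> omega

/-- two end pieces at the same face -/
theorem one {g1 g2 h1 h2 K : ℕ} {A1 A2 : Multiset ℕ} (c1 : CoreG g1 A1 h1)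
    (c2 : CoreG g2 A2 h2) (hg2 : 2 ≤ g2) (hK : g1 + g2 ≤ K) :
    Good (K ::ₘ (A1 + A2)) (h1 + h2) := by
  obtain ⟨p1, s1⟩ := c1.start
  obtain ⟨p4, s4⟩ := c2.fin hg2 (s1.grow (K - g1 - g2))
  refine ⟨p4 + p1 + (K - g1 - g2), s4.congr ?_⟩
  intro j
  have e1 : g1 + 2 + (K - g1 - g2) + (g2 - 2) = K := by omega
  rw [e1]
  simp only [Multiset.count_add, Multiset.count_cons, Multiset.count_singleton,
    Multiset.count_replicate]
  split_ifs <;> omega

theorem Good.congr {L L' : Multiset ℕ} {n n' : ℕ} (h : Good L n) (e1 : L = L') (e2 : n = n') :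
    Good L' n' := by
  subst e1 e2
  exact h

end Pool.Agent.Helper79.HG
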