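import Pool.Agent.Helper79.HX.Plug

/-!
# Replacing a patch of a triangulated sphere: definitions
-/

namespace Pool.Agent.Helper79.HG

open Finset Pool.Agent.Helper79.HX

/-- the number of triangles containing `e` -/
def cnt (T : Finset (Finset ℕ)) (e : Finset ℕ) : ℕ := (T.filter (fun s => e ⊆ s)).card

/-- connected through edges -/
def Conn (N : Finset (Finset ℕ)) : Prop :=
  ∀ A ⊆ N, A.Nonempty → (∀ s ∈ A, ∀ t ∈ N, (s ∩ t).card = 2 → t ∈ A) → A = N

/-- The patch `C` may be replaced by the patch `N` with the new vertices `W`, if all the triangles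
at the vertices in `I` belong to `C`. -/
structure Patch (C N : Finset (Finset ℕ)) (W I : Finset ℕ) : Prop where
  ne : C.Nonempty
  tri : ∀ t ∈ N, t.card = 3
  vert : verts N = verts C ∪ W
  edge : ∀ t ∈ N, ∀ e ∈ t.powersetCard 2,
    (cnt N e = 2 ∧ (cnt C e = 2 ∨ ∃ v ∈ e, v ∈ W ∪ I)) ∨ (cnt N e = 1 ∧ cnt C e = 1)
  bdry : ∀ t ∈ C, ∀ e ∈ t.powersetCard 2, cnt C e = 1 → cnt N e = 1
  new : ∀ t ∈ N, t ∈ C ∨ (∃ v ∈ t, v ∈ W ∪ I) ∨ ∃ e ∈ t.powersetCard 2, cnt C e = 2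
  conn : Conn N
  card : N.card = C.card + 2 * W.card

end Pool.Agent.Helper79.HG
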