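import Pool.Agent.Helper79.HG.Defs

/-!
# BLOCK HG-2: a sphere without a triangle is connected

* `conn_erase`: let `A ⊆ T.erase f` be nonempty and closed in `T.erase f`, and suppose that
  `B = (T.erase f) \ A` is nonempty; `B` is closed, too (`(s ∩ t).card = 2` is symmetric).
  Let `i` be the number of the three edges `e` of `f` whose second triangle lies in `A`.
  `i ≠ 0`: otherwise `A` is closed in `T` (a triangle of `A` adjacent to `f` contains an edge of
  `f`), so `A = T` by `hS.conn`, but `f ∉ A`.
  `i ≠ 1`: parity.  Let `e` be the only edge of `f` whose second triangle is in `A` and `v ∈ e`.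
  Count the pairs `(g, t)` with `v ∈ g ⊆ t ∈ A`, `g.card = 2`: every `t ∈ A` with `v ∈ t` contains
  exactly two such `g`, so the number is even; on the other hand every such `g` lies in exactly 2
  triangles of `T`, both are in `A` if `g ⊄ f` (closedness, `inter_two`), and for `g ⊆ f` the
  number of triangles of `A` at `g` is 1 for `g = e` and 0 for the other one.  So the number is
  odd, contradiction.
  The same holds for `B`; the two numbers add up to 3, contradiction.
-/

namespace Pool.Agent.Helper79.HG

open Finset Pool.Agent.Helper79.HX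

/-- `X` is closed in `T.erase f` -/
private def Clo (T : Finset (Finset ℕ)) (f : Finset ℕ) (X : Finset (Finset ℕ)) : Prop :=
  ∀ s ∈ X, ∀ t ∈ T.erase f, (s ∩ t).card = 2 → t ∈ X

/-- parity at the vertex `a` of `f = {a, b, c}` -/
private theorem even_cnt {T X : Finset (Finset ℕ)} {a b c : ℕ} (hS : IsSphere T)
    (hX : X ⊆ T.erase {a, b, c}) (hc : Clo T {a, b, c} X) (hab : a ≠ b) (hac : a ≠ c)
    (hbc : b ≠ c) (hf : ({a, b, c} : Finset ℕ) ∈ T) :
    Even (cnt X {a, b} + cnt X {a, c}) := by
  have hXT : X ⊆ T := hX.trans (Finset.erase_subset _ _)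
  -- the double count
  have h1 : ∑ x ∈ (verts T).erase a, cnt X {a, x} =
      ∑ t ∈ X, (if a ∈ t then 2 else 0) := by
    have e1 : ∀ x ∈ (verts T).erase a, cnt X {a, x} =
        ∑ t ∈ X, (if ({a, x} : Finset ℕ) ⊆ t then 1 else 0) := by
      intro x _
      rw [cnt, Finset.card_filter]
    rw [Finset.sum_congr rfl e1, Finset.sum_comm]
    refine Finset.sum_congr rfl fun t ht => ?_
    rw [← Finset.card_filter]
    split_ifs with h
    · have e2 : ((verts T).erase a).filter (fun x => ({a, x} : Finset ℕ) ⊆ t) = t.erase a := by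
        ext x
        simp only [Finset.mem_filter, Finset.mem_erase, Finset.insert_subset_iff,
          Finset.singleton_subset_iff]
        constructor
        · rintro ⟨⟨h1, _⟩, _, h3⟩
          exact ⟨h1, h3⟩
        · rintro ⟨h1, h3⟩
          exact ⟨⟨h1, mem_verts.2 ⟨t, hXT ht, h3⟩⟩, h, h3⟩
      rw [e2, Finset.card_erase_of_mem h, hS.tri t (hXT ht)]
    · rw [Finset.card_eq_zero, Finset.filter_eq_empty_iff]
      intro x _ hx
      exact h (hx (by simp))
  have h2 : Even (∑ t ∈ X, (if a ∈ t then 2 else 0)) := by
    refine Finset.even_sum _ fun t _ => ?_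
    split_ifs <;> decide
  have hb : b ∈ (verts T).erase a :=
    Finset.mem_erase.2 ⟨hab.symm, mem_verts.2 ⟨_, hf, by simp⟩⟩
  have hc' : c ∈ ((verts T).erase a).erase b :=
    Finset.mem_erase.2 ⟨hbc.symm, Finset.mem_erase.2 ⟨hac.symm, mem_verts.2 ⟨_, hf, by simp⟩⟩⟩
  have h3 : Even (∑ x ∈ (((verts T).erase a).erase b).erase c, cnt X {a, x}) := by
    refine Finset.even_sum _ fun x hx => ?_
    have hxc : x ≠ c := (Finset.mem_erase.1 hx).1
    have hxb : x ≠ b := (Finset.mem_erase.1 (Finset.mem_erase.1 hx).2).1
    have hxa : x ≠ a := (Finset.mem_erase.1 (Finset.mem_erase.1 (Finset.mem_erase.1 hx).2).2).1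
    rcases Finset.eq_empty_or_nonempty (X.filter (fun s => ({a, x} : Finset ℕ) ⊆ s)) with h | h
    · rw [cnt, h, Finset.card_empty]
      exact Even.zero
    · obtain ⟨t, ht⟩ := h
      obtain ⟨htX, hat⟩ := Finset.mem_filter.1 ht
      have hcard : ({a, x} : Finset ℕ).card = 2 := Finset.card_pair hxa.symm
      have e3 : X.filter (fun s => ({a, x} : Finset ℕ) ⊆ s) =
          T.filter (fun s => ({a, x} : Finset ℕ) ⊆ s) := by
        ext s
        simp only [Finset.mem_filter]
        constructor
        · rintro ⟨h1, h2⟩
          exact ⟨hXT h1, h2⟩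
        · rintro ⟨h1, h2⟩
          refine ⟨?_, h2⟩
          have hsf : s ≠ {a, b, c} := by
            rintro rfl
            have : x ∈ ({a, b, c} : Finset ℕ) := h2 (by simp)
            simp only [Finset.mem_insert, Finset.mem_singleton] at this
            rcases this with h | h | h
            · exact hxa h
            · exact hxb h
            · exact hxc h
          by_cases hts : t = s
          · rw [← hts]; exact htX
          · exact hc t htX s (Finset.mem_erase.2 ⟨hsf, h1⟩)
              (inter_two (hS.tri t (hXT htX)) (hS.tri s h1) hts hcard hat h2)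
      rw [cnt, e3, hS.edge t (hXT htX) _ hat hcard]
      decide
  have h4 := Finset.add_sum_erase _ (fun x => cnt X {a, x}) hb
  have h5 := Finset.add_sum_erase _ (fun x => cnt X {a, x}) hc'
  rw [← h1, ← h4, ← h5] at h2
  rw [← add_assoc] at h2
  rw [Nat.even_add] at h2
  exact h2.2 h3

/-- `X` has at most one triangle at an edge of `f` -/
private theorem cnt_le_one {T X : Finset (Finset ℕ)} {f e : Finset ℕ} (hS : IsSphere T)
    (hf : f ∈ T) (hX : X ⊆ T.erase f) (he : e ⊆ f) (hc : e.card = 2) : cnt X e ≤ 1 := by
  have h1 : X.filter (fun s => e ⊆ s) ⊆ (T.filter (fun s => e ⊆ s)).erase f := by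
    intro s hs
    obtain ⟨h1, h2⟩ := Finset.mem_filter.1 hs
    obtain ⟨h3, h4⟩ := Finset.mem_erase.1 (hX h1)
    exact Finset.mem_erase.2 ⟨h3, Finset.mem_filter.2 ⟨h4, h2⟩⟩
  have h2 := Finset.card_le_card h1
  rw [Finset.card_erase_of_mem (Finset.mem_filter.2 ⟨hf, he⟩), hS.edge f hf e he hc] at h2
  exact h2

/-- a nonempty closed set has exactly one triangle at each edge of `f` -/
private theorem cnt_eq_one {T X : Finset (Finset ℕ)} {a b c : ℕ} (hS : IsSphere T)
    (hX : X ⊆ T.erase {a, b, c}) (hne : X.Nonempty) (hc : Clo T {a, b, c} X) (hab : a ≠ b)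
    (hac : a ≠ c) (hbc : b ≠ c) (hf : ({a, b, c} : Finset ℕ) ∈ T) :
    cnt X {a, b} = 1 := by
  have hXT : X ⊆ T := hX.trans (Finset.erase_subset _ _)
  have p1 := even_cnt hS hX hc hab hac hbc hf
  have eq2 : ({b, a, c} : Finset ℕ) = {a, b, c} := by
    ext x; simp only [Finset.mem_insert, Finset.mem_singleton]; tauto
  have p2 := even_cnt (X := X) (a := b) (b := a) (c := c) hS (eq2 ▸ hX) (eq2 ▸ hc)
    hab.symm hbc hac (eq2 ▸ hf)
  rw [Finset.pair_comm b a] at p2
  have l1 := cnt_le_one hS hf hX (e := {a, b}) (by
    intro x hx; simp only [Finset.mem_insert, Finset.mem_singleton] at hx ⊢; tauto)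
    (Finset.card_pair hab)
  have l2 := cnt_le_one hS hf hX (e := {a, c}) (by
    intro x hx; simp only [Finset.mem_insert, Finset.mem_singleton] at hx ⊢; tauto)
    (Finset.card_pair hac)
  have l3 := cnt_le_one hS hf hX (e := {b, c}) (by
    intro x hx; simp only [Finset.mem_insert, Finset.mem_singleton] at hx ⊢; tauto)
    (Finset.card_pair hbc)
  by_contra hcon
  have z1 : cnt X {a, b} = 0 := by omega
  have z2 : cnt X {a, c} = 0 := by
    have h := Nat.even_iff.1 p1
    omega
  have z3 : cnt X {b, c} = 0 := by
    have h := Nat.even_iff.1 p2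
    omega
  have hfX : ({a, b, c} : Finset ℕ) ∉ X := fun h => (Finset.mem_erase.1 (hX h)).1 rfl
  apply hfX
  rw [hS.conn X hXT hne]
  · exact hf
  intro s hs t ht hst
  by_cases htf : t = {a, b, c}
  · exfalso
    subst htf
    -- s ∩ f is an edge of f
    have key : ∀ e : Finset ℕ, e.card = 2 → e ⊆ ({a, b, c} : Finset ℕ) → e = {a, b} ∨ e = {a, c} ∨
        e = {b, c} := by
      intro e he hef
      by_cases ha : a ∈ e
      · by_cases hb : b ∈ e
        · left
          symm
          apply Finset.eq_of_subset_of_card_le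
          · intro x hx
            simp only [Finset.mem_insert, Finset.mem_singleton] at hx
            rcases hx with rfl | rfl
            · exact ha
            · exact hb
          · rw [he, Finset.card_pair hab]
        · right; left
          apply Finset.eq_of_subset_of_card_le
          · intro x hx
            have := hef hx
            simp only [Finset.mem_insert, Finset.mem_singleton] at this ⊢
            rcases this with h | h | h
            · exact Or.inl h
            · exact absurd (h ▸ hx) hb
            · exact Or.inr h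
          · rw [he, Finset.card_pair hac]
      · right; right
        apply Finset.eq_of_subset_of_card_le
        · intro x hx
          have := hef hx
          simp only [Finset.mem_insert, Finset.mem_singleton] at this ⊢
          rcases this with h | h | h
          · exact absurd (h ▸ hx) ha
          · exact Or.inl h
          · exact Or.inr h
        · rw [he, Finset.card_pair hbc]
    have hz : ∀ e : Finset ℕ, e ⊆ s → cnt X e ≠ 0 := by
      intro e he
      rw [cnt, Ne, Finset.card_eq_zero]
      exact Finset.Nonempty.ne_empty ⟨s, Finset.mem_filter.2 ⟨hs, he⟩⟩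
    rcases key _ hst Finset.inter_subset_right with h | h | h
    · exact hz {a, b} (h ▸ Finset.inter_subset_left) z1
    · exact hz {a, c} (h ▸ Finset.inter_subset_left) z2
    · exact hz {b, c} (h ▸ Finset.inter_subset_left) z3
  · exact hc s hs t (Finset.mem_erase.2 ⟨htf, ht⟩) hst

theorem conn_erase {T : Finset (Finset ℕ)} {f : Finset ℕ} (hS : IsSphere T) (hf : f ∈ T) :
    Conn (T.erase f) := by
  intro A hA hne hcl
  by_contra hAne
  obtain ⟨a, b, c, hab, hac, hbc, rfl⟩ := Finset.card_eq_three.1 (hS.tri f hf)
  have hBne : ((T.erase {a, b, c}) \ A).Nonempty := by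
    rw [Finset.sdiff_nonempty]
    intro h
    exact hAne (Finset.Subset.antisymm hA h)
  have hB : (T.erase {a, b, c}) \ A ⊆ T.erase {a, b, c} := Finset.sdiff_subset
  have hclB : Clo T {a, b, c} ((T.erase {a, b, c}) \ A) := by
    intro s hs t ht hst
    obtain ⟨hs1, hs2⟩ := Finset.mem_sdiff.1 hs
    refine Finset.mem_sdiff.2 ⟨ht, fun htA => hs2 ?_⟩
    exact hcl t htA s hs1 (by rw [Finset.inter_comm]; exact hst)
  have h1 := cnt_eq_one hS hA hne hcl hab hac hbc hf
  have h2 := cnt_eq_one hS hB hBne hclB hab hac hbc hf
  have h3 := cnt_le_one hS hf (Finset.Subset.refl _) (e := {a, b}) (by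
    intro x hx; simp only [Finset.mem_insert, Finset.mem_singleton] at hx ⊢; tauto)
    (Finset.card_pair hab)
  have h4 : cnt (T.erase {a, b, c}) {a, b} = cnt A {a, b} + cnt ((T.erase {a, b, c}) \ A) {a, b} := by
    unfold cnt
    rw [← Finset.card_union_of_disjoint (Finset.disjoint_filter_filter Finset.disjoint_sdiff),
      ← Finset.filter_union, Finset.union_sdiff_of_subset hA]
  omega

end Pool.Agent.Helper79.HG
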