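import Pool.Agent.Helper79.HG.Defs

/-!
# BLOCK HG-1: replacing a patch (template: HX/Plug.lean, where C is a single triangle)

Put `T' = (T \ C) ∪ N`.

* `(T \ C)` and `N` are disjoint: let `t ∈ N`, `t ∈ T`, `t ∉ C`.  By `new`: either `t` has a vertex
  in `W` (impossible, `W` is disjoint from `verts T`), or a vertex `v ∈ I` (impossible: by `hI` the
  number of triangles at `v` is the same in `T` and in `C ⊆ T`, so `t ∈ C`), or `t` contains an edge `e` with
  `cnt C e = 2`; but `cnt T e = 2` (`hS.edge`, as `e ⊆ t ∈ T`), so both triangles at `e` are in `C`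
  (`C ⊆ T`), so `t ∈ C`, contradiction.
* Hence for every predicate `P`: card (T'.filter P) + card (C.filter P) = card (T.filter P) +
  card (N.filter P).  This gives the statement on the degrees, and for edges
  `cnt T' e + cnt C e = cnt T e + cnt N e`.
* vertices: an old vertex is in `verts C ⊆ verts N` or all its triangles are in `T \ C`.
* edges: let `e ⊆ t ∈ T'`, `e.card = 2`.
  If `t ∈ T \ C`: `cnt T e = 2` and `cnt C e ≤ 1` (as `t ∉ C` is one of the two triangles).  If
  `cnt C e = 1` then `cnt N e = 1` by `bdry` (some `t' ∈ C` contains `e`).  If `cnt C e = 0` then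
  `cnt N e = 0`: otherwise some `t' ∈ N` contains `e` and `edge` gives `cnt C e = 2`, or a vertex
  of `e` in `W ∪ I` (impossible, `e ⊆ t ∈ T \ C`), or `cnt C e = 1`.
  If `t ∈ N`, use `edge`: in the case `cnt N e = 2`: if `cnt C e = 2` then `cnt T e = 2`
  (`e ⊆ t' ∈ C ⊆ T`); if `e` has a vertex in `W` then `cnt T e = 0 = cnt C e`; if `e` has a vertex in `I` then
  `cnt T e = cnt C e` (all the triangles of `T` containing `e` are in `C`).  In the case
  `cnt N e = 1 = cnt C e` again `cnt T e = 2`.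
* connectedness: as in `plug_conn`.  Let `A ⊆ T'` be nonempty and closed.  Neighbour fact: if
  `s ∈ T \ C` and `c ∈ C` with `(s ∩ c).card = 2`, then `e = s ∩ c` has `cnt T e = 2`, so
  `cnt C e = 1`, `cnt N e = 1` by `bdry`, and the triangle `n ∈ N` with `e ⊆ n` satisfies
  `(s ∩ n).card = 2` (`inter_two`; `s ≠ n` by disjointness).
  If `A ∩ N` is empty then `A ⊆ T \ C` is closed in `T` (a neighbour in `C` would give a neighbour
  in `N`), so `A = T` by `hS.conn`, contradicting `C ≠ ∅`.  So `A ∩ N` is nonempty and closed in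
  `N`, hence `N ⊆ A` by `conn`.  Then `A1 = T.filter (t ∈ C ∨ t ∈ A)` is closed in `T` (let
  `s ∈ A1`, `t ∈ T` adjacent; if `t ∉ C`: for `s ∉ C` use that `A` is closed; for `s ∈ C` the
  neighbour fact gives `n ∈ N ⊆ A` adjacent to `t`), so `A1 = T` and `A = T'`.
* Euler: `2 (|V| + |W|) = |T| + 4 + 2 |W| = |T'| + 4`.
-/

namespace Pool.Agent.Helper79.HG

open Finset Pool.Agent.Helper79.HX

section
variable {T C N : Finset (Finset ℕ)} {W I : Finset ℕ}

theorem mem_rep {t : Finset ℕ} : t ∈ (T \ C) ∪ N ↔ (t ∈ T ∧ t ∉ C) ∨ t ∈ N := by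
  rw [Finset.mem_union, Finset.mem_sdiff]

/-- If as many triangles satisfy `P` in `C` as in `T`, all of them are in `C`. -/
theorem all_mem (hC : C ⊆ T) {P : Finset ℕ → Prop} [DecidablePred P]
    (h : (T.filter P).card ≤ (C.filter P).card) {t : Finset ℕ} (ht : t ∈ T) (hP : P t) : t ∈ C := by
  have e : C.filter P = T.filter P :=
    Finset.eq_of_subset_of_card_le (Finset.filter_subset_filter P hC) h
  have : t ∈ C.filter P := by rw [e]; exact Finset.mem_filter.2 ⟨ht, hP⟩
  exact (Finset.mem_filter.1 this).1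

variable (hP : Patch C N W I) (hS : IsSphere T) (hC : C ⊆ T) (hW : Disjoint W (verts T))
  (hI : ∀ v ∈ I, deg T v = deg C v)

include hC hI in
theorem mem_of_I {v : ℕ} (hv : v ∈ I) {t : Finset ℕ} (ht : t ∈ T) (hvt : v ∈ t) : t ∈ C :=
  all_mem hC (P := fun t => v ∈ t) (hI v hv).le ht hvt

include hC hW hI in
theorem not_WI {t e : Finset ℕ} (ht : t ∈ T) (htC : t ∉ C) (he : e ⊆ t) : ¬ ∃ v ∈ e, v ∈ W ∪ I := by
  rintro ⟨v, hve, hv⟩
  rcases Finset.mem_union.1 hv with h | h
  · exact Finset.disjoint_left.1 hW h (mem_verts.2 ⟨t, ht, he hve⟩)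
  · exact htC (mem_of_I hC hI h ht (he hve))

include hS hC in
theorem cnt_le_one {t e : Finset ℕ} (ht : t ∈ T) (htC : t ∉ C) (het : e ⊆ t) (he : e.card = 2) :
    cnt C e ≤ 1 := by
  by_contra h
  have h1 := hS.edge t ht e het he
  refine htC (all_mem hC (P := fun s => e ⊆ s) ?_ ht het)
  rw [h1]
  unfold cnt at h
  omega

include hP hS hC hW hI in
theorem rep_disj : Disjoint (T \ C) N := by
  rw [Finset.disjoint_left]
  intro t ht htN
  obtain ⟨htT, htC⟩ := Finset.mem_sdiff.1 ht
  rcases hP.new t htN with h | h | ⟨e, he, h⟩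
  · exact htC h
  · exact not_WI hC hW hI htT htC subset_rfl h
  · obtain ⟨het, he2⟩ := Finset.mem_powersetCard.1 he
    have := cnt_le_one hS hC htT htC het he2
    omega

include hP hS hC hW hI in
theorem rep_count (P : Finset ℕ → Prop) [DecidablePred P] :
    (((T \ C) ∪ N).filter P).card + (C.filter P).card = (T.filter P).card + (N.filter P).card := by
  rw [Finset.filter_union, Finset.card_union_of_disjoint
    (Finset.disjoint_filter_filter (rep_disj hP hS hC hW hI))]
  have h3 : ((T \ C).filter P).card + (C.filter P).card = (T.filter P).card := by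
    rw [← Finset.card_union_of_disjoint (Finset.disjoint_filter_filter Finset.sdiff_disjoint),
      ← Finset.filter_union, Finset.sdiff_union_of_subset hC]
  omega

include hC in
theorem verts_sub : verts C ⊆ verts T := by
  intro x hx
  obtain ⟨t, ht, hxt⟩ := mem_verts.1 hx
  exact mem_verts.2 ⟨t, hC ht, hxt⟩

include hP hC in
theorem rep_verts : verts ((T \ C) ∪ N) = verts T ∪ W := by
  ext x
  rw [Finset.mem_union, mem_verts]
  constructor
  · rintro ⟨t, ht, hx⟩
    rcases mem_rep.1 ht with ⟨h, -⟩ | h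
    · exact Or.inl (mem_verts.2 ⟨t, h, hx⟩)
    · have : x ∈ verts N := mem_verts.2 ⟨t, h, hx⟩
      rw [hP.vert, Finset.mem_union] at this
      rcases this with h | h
      · exact Or.inl (verts_sub hC h)
      · exact Or.inr h
  · intro h
    by_cases hx : x ∈ verts C ∪ W
    · rw [← hP.vert] at hx
      obtain ⟨t, ht, hxt⟩ := mem_verts.1 hx
      exact ⟨t, mem_rep.2 (Or.inr ht), hxt⟩
    · rw [Finset.mem_union, not_or] at hx
      rcases h with h | h
      · obtain ⟨t, ht, hxt⟩ := mem_verts.1 h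
        exact ⟨t, mem_rep.2 (Or.inl ⟨ht, fun h => hx.1 (mem_verts.2 ⟨t, h, hxt⟩)⟩), hxt⟩
      · exact absurd h hx.2

theorem exists_of_cnt {N : Finset (Finset ℕ)} {e : Finset ℕ} (h : cnt N e ≠ 0) : ∃ t ∈ N, e ⊆ t := by
  unfold cnt at h
  obtain ⟨t, ht⟩ := Finset.card_pos.1 (Nat.pos_of_ne_zero h)
  obtain ⟨h1, h2⟩ := Finset.mem_filter.1 ht
  exact ⟨t, h1, h2⟩

include hP hS hC hW hI in
theorem rep_edge : ∀ t ∈ (T \ C) ∪ N, ∀ e ⊆ t, e.card = 2 →
    (((T \ C) ∪ N).filter (fun s => e ⊆ s)).card = 2 := by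
  intro t ht e het he
  have hc : (((T \ C) ∪ N).filter (fun s => e ⊆ s)).card + cnt C e = cnt T e + cnt N e :=
    rep_count hP hS hC hW hI (fun s => e ⊆ s)
  rcases mem_rep.1 ht with ⟨htT, htC⟩ | htN
  · have e1 : cnt T e = 2 := hS.edge t htT e het he
    have e2 := cnt_le_one hS hC htT htC het he
    rcases Nat.eq_zero_or_pos (cnt C e) with h0 | h0
    · have e3 : cnt N e = 0 := by
        by_contra hne
        obtain ⟨t', ht', het'⟩ := exists_of_cnt hne
        rcases hP.edge t' ht' e (Finset.mem_powersetCard.2 ⟨het', he⟩) with ⟨-, h | h⟩ | ⟨-, h⟩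
        · omega
        · exact not_WI hC hW hI htT htC het h
        · omega
      omega
    · have e3 : cnt C e = 1 := by omega
      obtain ⟨t', ht', het'⟩ := exists_of_cnt (N := C) (e := e) (by omega)
      have e4 := hP.bdry t' ht' e (Finset.mem_powersetCard.2 ⟨het', he⟩) e3
      omega
  · have hTC : cnt C e ≠ 0 → cnt T e = 2 := by
      intro h
      obtain ⟨t', ht', het'⟩ := exists_of_cnt h
      exact hS.edge t' (hC ht') e het' he
    rcases hP.edge t htN e (Finset.mem_powersetCard.2 ⟨het, he⟩) with ⟨h1, h | ⟨v, hve, hv⟩⟩ | ⟨h1, h⟩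
    · have := hTC (by omega)
      omega
    · rcases Finset.mem_union.1 hv with h | h
      · have e0 : cnt T e = 0 := by
          unfold cnt
          rw [Finset.card_eq_zero, Finset.filter_eq_empty_iff]
          intro s hs hes
          exact Finset.disjoint_left.1 hW h (mem_verts.2 ⟨s, hs, hes hve⟩)
        have e1 : cnt C e ≤ cnt T e := Finset.card_le_card (Finset.filter_subset_filter _ hC)
        omega
      · have e1 : cnt C e = cnt T e := by
          unfold cnt
          congr 1
          refine Finset.Subset.antisymm (Finset.filter_subset_filter _ hC) fun s hs => ?_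
          obtain ⟨hs, hes⟩ := Finset.mem_filter.1 hs
          exact Finset.mem_filter.2 ⟨mem_of_I hC hI h hs (hes hve), hes⟩
        omega
    · have := hTC (by omega)
      omega

include hP hS hC hW hI in
/-- A triangle of `N` next to a triangle of `T \ C` adjacent to a triangle of `C`. -/
theorem rep_nb {s c : Finset ℕ} (hs : s ∈ T) (hsC : s ∉ C) (hc : c ∈ C) (hsc : (s ∩ c).card = 2) :
    ∃ n ∈ N, (s ∩ n).card = 2 ∧ (n ∩ s).card = 2 := by
  have e2 := cnt_le_one hS hC hs hsC (Finset.inter_subset_left (s₂ := c)) hsc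
  have e3 : cnt C (s ∩ c) ≠ 0 := by
    unfold cnt
    exact (Finset.card_pos.2 ⟨c, Finset.mem_filter.2 ⟨hc, Finset.inter_subset_right⟩⟩).ne'
  have e4 := hP.bdry c hc (s ∩ c) (Finset.mem_powersetCard.2 ⟨Finset.inter_subset_right, hsc⟩) (by omega)
  obtain ⟨n, hn, hns⟩ := exists_of_cnt (N := N) (e := s ∩ c) (by omega)
  have hne : s ≠ n := by
    rintro rfl
    exact Finset.disjoint_left.1 (rep_disj hP hS hC hW hI) (Finset.mem_sdiff.2 ⟨hs, hsC⟩) hn
  exact ⟨n, hn, inter_two (hS.tri s hs) (hP.tri n hn) hne hsc Finset.inter_subset_left hns,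
    inter_two (hP.tri n hn) (hS.tri s hs) hne.symm hsc hns Finset.inter_subset_left⟩

include hP hS hC hW hI in
theorem rep_conn : ∀ A ⊆ (T \ C) ∪ N, A.Nonempty →
    (∀ s ∈ A, ∀ t ∈ (T \ C) ∪ N, (s ∩ t).card = 2 → t ∈ A) → A = (T \ C) ∪ N := by
  intro A hA hne hcl
  have hNA : N ⊆ A := by
    by_cases hAN : (A ∩ N).Nonempty
    · have : A ∩ N = N := by
        apply hP.conn _ Finset.inter_subset_right hAN
        intro s hs t ht hst
        obtain ⟨hsA, hsN⟩ := Finset.mem_inter.1 hs
        exact Finset.mem_inter.2 ⟨hcl s hsA t (mem_rep.2 (Or.inr ht)) hst, ht⟩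
      rw [← this]; exact Finset.inter_subset_left
    · exfalso
      have hAT : ∀ s ∈ A, s ∈ T ∧ s ∉ C := by
        intro s hs
        rcases mem_rep.1 (hA hs) with h | h
        · exact h
        · exact absurd ⟨s, Finset.mem_inter.2 ⟨hs, h⟩⟩ hAN
      have : A = T := by
        apply hS.conn A (fun s hs => (hAT s hs).1) hne
        intro s hs t ht hst
        by_cases htC : t ∈ C
        · obtain ⟨n, hnN, hn, -⟩ := rep_nb hP hS hC hW hI (hAT s hs).1 (hAT s hs).2 htC hst
          exact absurd ⟨n, Finset.mem_inter.2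
            ⟨hcl s hs n (mem_rep.2 (Or.inr hnN)) hn, hnN⟩⟩ hAN
        · exact hcl s hs t (mem_rep.2 (Or.inl ⟨ht, htC⟩)) hst
      obtain ⟨c, hc⟩ := hP.ne
      exact (hAT c (this ▸ hC hc)).2 hc
  have hA1 : T.filter (fun t => t ∈ C ∨ t ∈ A) = T := by
    obtain ⟨c, hc⟩ := hP.ne
    apply hS.conn _ (Finset.filter_subset _ _) ⟨c, Finset.mem_filter.2 ⟨hC hc, Or.inl hc⟩⟩
    intro s hs t ht hst
    obtain ⟨hsT, hs⟩ := Finset.mem_filter.1 hs
    refine Finset.mem_filter.2 ⟨ht, ?_⟩
    by_cases htC : t ∈ C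
    · exact Or.inl htC
    · right
      rcases hs with hs | hs
      · rw [Finset.inter_comm] at hst
        obtain ⟨n, hnN, -, hn⟩ := rep_nb hP hS hC hW hI ht htC hs hst
        exact hcl n (hNA hnN) t (mem_rep.2 (Or.inl ⟨ht, htC⟩)) hn
      · exact hcl s hs t (mem_rep.2 (Or.inl ⟨ht, htC⟩)) hst
  apply Finset.Subset.antisymm hA
  intro t ht
  rcases mem_rep.1 ht with ⟨htT, htC⟩ | h
  · rw [← hA1] at htT
    rcases (Finset.mem_filter.1 htT).2 with h | h
    · exact absurd h htC
    · exact h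
  · exact hNA h

end

theorem replace {T C N : Finset (Finset ℕ)} {W I : Finset ℕ} (hP : Patch C N W I)
    (hS : IsSphere T) (hC : C ⊆ T) (hW : Disjoint W (verts T))
    (hI : ∀ v ∈ I, deg T v = deg C v) :
    IsSphere ((T \ C) ∪ N) ∧ verts ((T \ C) ∪ N) = verts T ∪ W ∧
      ∀ v, deg ((T \ C) ∪ N) v + deg C v = deg T v + deg N v := by
  refine ⟨⟨?_, ?_, rep_edge hP hS hC hW hI, rep_conn hP hS hC hW hI, ?_⟩, rep_verts hP hC,
    fun v => rep_count hP hS hC hW hI (fun t => v ∈ t)⟩
  · have h1 : N.Nonempty := by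
      rw [← Finset.card_pos, hP.card]
      have := Finset.card_pos.2 hP.ne
      omega
    exact h1.mono Finset.subset_union_right
  · intro t ht
    rcases mem_rep.1 ht with ⟨h, -⟩ | h
    · exact hS.tri t h
    · exact hP.tri t h
  · rw [rep_verts hP hC, Finset.card_union_of_disjoint hW.symm]
    have hc := rep_count hP hS hC hW hI (fun _ => True)
    simp only [Finset.filter_true] at hc
    have := hS.euler
    have := hP.card
    omega

end Pool.Agent.Helper79.HG
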