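import Pool.Agent.Helper79.HG.Lit2
import Pool.Agent.Helper79.HG.Replace

/-!
# The wide tube: adding one hexagon
-/

namespace Pool.Agent.Helper79.HG

open Finset Pool.Agent.Helper79.HX

/-- A sphere with the cap (labels `0, ..., 12`, boundary `0, ..., 5`) and a marked triangle. -/
def Grow (d0 d1 d2 d3 d4 d5 z x y : ℕ) (M : Multiset ℕ) : Prop :=
  ∃ (T : Finset (Finset ℕ)) (a b c : ℕ), IsSphere T ∧ cap1 ⊆ T ∧ 13 ≤ a ∧ 13 ≤ b ∧ 13 ≤ c ∧
    a ≠ b ∧ a ≠ c ∧ b ≠ c ∧ {a, b, c} ∈ T ∧ deg T a = z ∧ deg T b = x ∧ deg T c = y ∧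
    deg T 0 = d0 ∧ deg T 1 = d1 ∧ deg T 2 = d2 ∧ deg T 3 = d3 ∧ deg T 4 = d4 ∧ deg T 5 = d5 ∧
    (∀ i ∈ inn, deg T i = deg cap1 i) ∧
    (verts T \ (range 13 ∪ {a, b, c})).val.map (deg T) = M

theorem deg_zero {T : Finset (Finset ℕ)} {v : ℕ} (h : v ∉ verts T) : deg T v = 0 := by
  rw [deg, Finset.card_eq_zero, Finset.filter_eq_empty_iff]
  intro t ht hv
  exact h (mem_verts.2 ⟨t, ht, hv⟩)

/-- make room for the label 13 -/
def g1 (v : ℕ) : ℕ := if v < 13 then v else v + 1

theorem g1_inj : Function.Injective g1 := by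
  intro u v h
  unfold g1 at h
  split_ifs at h <;> omega

theorem g1_lo {v : ℕ} (h : v < 13) : g1 v = v := if_pos h
theorem g1_hi {v : ℕ} (h : 13 ≤ v) : g1 v = v + 1 := if_neg (by omega)
theorem sg_hi {v : ℕ} (h : 14 ≤ v) : sg v = v := by
  unfold sg
  rw [if_neg (by omega), if_neg (by omega), if_neg (by omega), if_neg (by omega)]

theorem mem_inn {i : ℕ} : i ∈ inn ↔ 6 ≤ i ∧ i < 13 := by
  simp only [inn, Finset.mem_insert, Finset.mem_singleton]
  omega

theorem Grow.step {d0 d1 d2 d3 d4 d5 z x y : ℕ} {M : Multiset ℕ}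
    (h : Grow d0 d1 d2 d3 d4 d5 z x y M) : Grow 6 d0 d1 d2 d3 d4 z x y (d5 ::ₘ M) := by
  obtain ⟨T, a, b, c, hS, hC, ha, hb, hc, hab, hac, hbc, hT, da, db, dc, e0, e1, e2, e3, e4, e5,
    hin, hM⟩ := h
  set T1 := relabel g1 T with hT1
  have hS1 : IsSphere T1 := relabel_isSphere g1_inj hS
  have hV1 : verts T1 = (verts T).image g1 := relabel_verts
  have h13 : 13 ∉ verts T1 := by
    rw [hV1]
    intro h
    obtain ⟨v, -, hv⟩ := Finset.mem_image.1 h
    unfold g1 at hv
    split_ifs at hv <;> omega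
  have hC1 : cap1 ⊆ T1 := by
    intro t ht
    have h1 : t.image g1 = t := by
      have h2 : ∀ v ∈ t, g1 v = v := by
        intro v hv
        have : v ∈ verts cap1 := mem_verts.2 ⟨t, ht, hv⟩
        rw [cap_verts, Finset.mem_range] at this
        exact g1_lo this
      calc t.image g1 = t.image id := Finset.image_congr (fun v hv => h2 v hv)
        _ = t := Finset.image_id
    rw [← h1]
    exact Finset.mem_image_of_mem _ (hC ht)
  have D1 : ∀ v, deg T1 (g1 v) = deg T v := fun v => relabel_deg g1_inj v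
  have D1lo : ∀ v, v < 13 → deg T1 v = deg T v := by
    intro v hv
    have := D1 v
    rwa [g1_lo hv] at this
  have D1hi : ∀ v, 13 ≤ v → deg T1 (v + 1) = deg T v := by
    intro v hv
    have := D1 v
    rwa [g1_hi hv] at this
  have c1 : ∀ v, 13 ≤ v → deg cap1 v = 0 := fun v hv => deg_zero (by
    rw [cap_verts, Finset.mem_range]; omega)
  have c2 : ∀ v, 14 ≤ v → deg cap2 v = 0 := fun v hv => deg_zero (by
    rw [cap_verts2, Finset.mem_range]; omega)
  obtain ⟨hS2, hV2, D2⟩ := replace capPatch hS1 hC1 (by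
    rw [Finset.disjoint_singleton_left]; exact h13) (by
    intro v hv
    have := mem_inn.1 hv
    rw [D1lo v (by omega)]
    exact hin v hv)
  set T2 := (T1 \ cap1) ∪ cap2 with hT2
  have D3 : ∀ v, deg (relabel sg T2) (sg v) = deg T2 v := fun v => relabel_deg sg_inj v
  have D3hi : ∀ v, 13 ≤ v → deg (relabel sg T2) (v + 1) = deg T v := by
    intro v hv
    have h1 := D3 (v + 1)
    rw [sg_hi (by omega)] at h1
    have h2 := D2 (v + 1)
    rw [c1 (v + 1) (by omega), c2 (v + 1) (by omega), D1hi v hv] at h2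
    omega
  have D3lo : ∀ v, v < 5 → deg (relabel sg T2) (v + 1) = deg T v := by
    intro v hv
    have h1 := D3 v
    have h3 : sg v = v + 1 := by
      unfold sg
      rw [if_neg (by omega), if_neg (by omega), if_pos hv]
    rw [h3] at h1
    have h2 := D2 v
    rw [cap_deg1 v (by omega), D1lo v (by omega)] at h2
    omega
  have m5 : 5 ∈ verts T := by
    have : 5 ∈ verts cap1 := by rw [cap_verts]; simp
    obtain ⟨t, ht, hv⟩ := mem_verts.1 this
    exact mem_verts.2 ⟨t, hC ht, hv⟩
  refine ⟨relabel sg T2, a + 1, b + 1, c + 1, relabel_isSphere sg_inj hS2, ?_, by omega, by omega,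
    by omega, by omega, by omega, by omega, ?_, by rw [D3hi a ha, da], by rw [D3hi b hb, db],
    by rw [D3hi c hc, dc], ?_, by rw [D3lo 0 (by omega), e0], by rw [D3lo 1 (by omega), e1],
    by rw [D3lo 2 (by omega), e2], by rw [D3lo 3 (by omega), e3], by rw [D3lo 4 (by omega), e4],
    ?_, ?_⟩
  · intro t ht
    obtain ⟨s, hs, hst⟩ := Finset.mem_image.1 (cap_copy ht)
    exact Finset.mem_image.2 ⟨s, Finset.mem_union_right _ hs, hst⟩
  · have h1 : ({a + 1, b + 1, c + 1} : Finset ℕ) ∈ T1 := by
      refine Finset.mem_image.2 ⟨_, hT, ?_⟩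
      rw [Finset.image_insert, Finset.image_insert, Finset.image_singleton, g1_hi ha, g1_hi hb,
        g1_hi hc]
    have h2 : ({a + 1, b + 1, c + 1} : Finset ℕ) ∉ cap1 := by
      intro h
      have : a + 1 ∈ verts cap1 := mem_verts.2 ⟨_, h, by simp⟩
      rw [cap_verts, Finset.mem_range] at this
      omega
    refine Finset.mem_image.2 ⟨_, Finset.mem_union_left _ (Finset.mem_sdiff.2 ⟨h1, h2⟩), ?_⟩
    rw [Finset.image_insert, Finset.image_insert, Finset.image_singleton, sg_hi (by omega),
      sg_hi (by omega), sg_hi (by omega)]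
  · have h1 := D3 6
    have h3 : sg 6 = 0 := by decide
    rw [h3] at h1
    have h2 := D2 6
    rw [D1lo 6 (by omega), hin 6 (mem_inn.2 (by omega)), cap_deg2] at h2
    omega
  · intro i hi
    have hi' := mem_inn.1 hi
    have h1 := D3 (i + 1)
    have h3 : sg (i + 1) = i := by
      unfold sg
      rw [if_neg (by omega), if_neg (by omega), if_neg (by omega), if_pos (by omega)]
      omega
    rw [h3] at h1
    have h2 := D2 (i + 1)
    have h4 := cap_deg3 i (by omega) hi'.1
    rcases (by omega : i = 12 ∨ i < 12) with h5 | h5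
    · subst h5
      rw [deg_zero h13, c1 13 (by omega)] at h2
      omega
    · rw [D1lo (i + 1) (by omega), hin (i + 1) (mem_inn.2 (by omega))] at h2
      omega
  · have hVS : verts (relabel sg T2) \ (range 13 ∪ {a + 1, b + 1, c + 1}) =
        insert 13 ((verts T \ (range 13 ∪ {a, b, c})).image (fun v => v + 1)) := by
      rw [relabel_verts, hV2, hV1]
      ext v
      simp only [Finset.mem_sdiff, Finset.mem_image, Finset.mem_union, Finset.mem_insert,
        Finset.mem_singleton, Finset.mem_range, not_or, not_lt]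
      constructor
      · rintro ⟨⟨u, hu, rfl⟩, h1, h2, h3, h4⟩
        rcases (by omega : u = 5 ∨ u ≤ 13 ∧ u ≠ 5 ∨ 14 ≤ u) with h5 | h5 | h5
        · left; subst h5; decide
        · exfalso
          unfold sg at h1
          split_ifs at h1 <;> omega
        · right
          rw [sg_hi h5] at h2 h3 h4 ⊢
          rcases hu with ⟨w, hw, hwu⟩ | hu
          · unfold g1 at hwu
            split_ifs at hwu with h6
            · omega
            · exact ⟨w, ⟨hw, by omega, by omega, by omega, by omega⟩, hwu⟩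
          · omega
      · rintro (rfl | ⟨w, ⟨hw, h1, h2, h3, h4⟩, rfl⟩)
        · exact ⟨⟨5, Or.inl ⟨5, m5, by decide⟩, by decide⟩, by omega, by omega, by omega, by omega⟩
        · exact ⟨⟨w + 1, Or.inl ⟨w, hw, g1_hi h1⟩, sg_hi (by omega)⟩, by omega, by omega, by omega,
            by omega⟩
    rw [hVS, Finset.insert_val_of_notMem, Multiset.map_cons]
    · congr 1
      · have h1 := D3 5
        have h3 : sg 5 = 13 := by decide
        rw [h3] at h1
        have h2 := D2 5
        rw [cap_deg1 5 (by omega), D1lo 5 (by omega), e5] at h2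
        omega
      · rw [Finset.image_val_of_injOn (fun u _ v _ h => by simpa using h), Multiset.map_map, ← hM]
        apply Multiset.map_congr rfl
        intro v hv
        have hv' : v ∈ verts T \ (range 13 ∪ {a, b, c}) := hv
        have h1 : 13 ≤ v := by
          by_contra hlt
          exact (Finset.mem_sdiff.1 hv').2 (Finset.mem_union_left _ (Finset.mem_range.2 (by omega)))
        exact D3hi v h1
    · intro h
      obtain ⟨w, hw, hw'⟩ := Finset.mem_image.1 h
      have h1 : w = 12 := by simpa using hw'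
      subst h1
      exact (Finset.mem_sdiff.1 hw).2 (Finset.mem_union_left _ (Finset.mem_range.2 (by omega)))

end Pool.Agent.Helper79.HG
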