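import Pool.Agent.Helper79.HG.Grow

/-!
# The wide tube: adding one hexagon (no marked triangle)
-/

namespace Pool.Agent.Helper79.HG

open Finset Pool.Agent.Helper79.HX

/-- A sphere with the cap (labels `0, ..., 12`, boundary `0, ..., 5`). -/
def Grow0 (d0 d1 d2 d3 d4 d5 : ℕ) (M : Multiset ℕ) : Prop :=
  ∃ T : Finset (Finset ℕ), IsSphere T ∧ cap1 ⊆ T ∧
    deg T 0 = d0 ∧ deg T 1 = d1 ∧ deg T 2 = d2 ∧ deg T 3 = d3 ∧ deg T 4 = d4 ∧ deg T 5 = d5 ∧
    (∀ i ∈ inn, deg T i = deg cap1 i) ∧
    (verts T \ range 13).val.map (deg T) = M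

theorem Grow0.step {d0 d1 d2 d3 d4 d5 : ℕ} {M : Multiset ℕ}
    (h : Grow0 d0 d1 d2 d3 d4 d5 M) : Grow0 6 d0 d1 d2 d3 d4 (d5 ::ₘ M) := by
  obtain ⟨T, hS, hC, e0, e1, e2, e3, e4, e5, hin, hM⟩ := h
  set T1 := relabel g1 T with hT1
  have hS1 : IsSphere T1 := relabel_isSphere g1_inj hS
  have hV1 : verts T1 = (verts T).image g1 := relabel_verts
  have h13 : 13 ∉ verts T1 := by
    rw [hV1]
    intro h
    obtain ⟨v, -, hv⟩ := Finset.mem_image.1 h
    unfold g1 at hv
    split_ifs at hv <;> omega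
  have hC1 : cap1 ⊆ T1 := by
    intro t ht
    have h1 : t.image g1 = t := by
      have h2 : ∀ v ∈ t, g1 v = v := by
        intro v hv
        have : v ∈ verts cap1 := mem_verts.2 ⟨t, ht, hv⟩
        rw [cap_verts, Finset.mem_range] at this
        exact g1_lo this
      calc t.image g1 = t.image id := Finset.image_congr (fun v hv => h2 v hv)
        _ = t := Finset.image_id
    rw [← h1]
    exact Finset.mem_image_of_mem _ (hC ht)
  have D1 : ∀ v, deg T1 (g1 v) = deg T v := fun v => relabel_deg g1_inj v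
  have D1lo : ∀ v, v < 13 → deg T1 v = deg T v := by
    intro v hv
    have := D1 v
    rwa [g1_lo hv] at this
  have D1hi : ∀ v, 13 ≤ v → deg T1 (v + 1) = deg T v := by
    intro v hv
    have := D1 v
    rwa [g1_hi hv] at this
  have c1 : ∀ v, 13 ≤ v → deg cap1 v = 0 := fun v hv => deg_zero (by
    rw [cap_verts, Finset.mem_range]; omega)
  have c2 : ∀ v, 14 ≤ v → deg cap2 v = 0 := fun v hv => deg_zero (by
    rw [cap_verts2, Finset.mem_range]; omega)
  obtain ⟨hS2, hV2, D2⟩ := replace capPatch hS1 hC1 (by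
    rw [Finset.disjoint_singleton_left]; exact h13) (by
    intro v hv
    have := mem_inn.1 hv
    rw [D1lo v (by omega)]
    exact hin v hv)
  set T2 := (T1 \ cap1) ∪ cap2 with hT2
  have D3 : ∀ v, deg (relabel sg T2) (sg v) = deg T2 v := fun v => relabel_deg sg_inj v
  have D3hi : ∀ v, 13 ≤ v → deg (relabel sg T2) (v + 1) = deg T v := by
    intro v hv
    have h1 := D3 (v + 1)
    rw [sg_hi (by omega)] at h1
    have h2 := D2 (v + 1)
    rw [c1 (v + 1) (by omega), c2 (v + 1) (by omega), D1hi v hv] at h2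
    omega
  have D3lo : ∀ v, v < 5 → deg (relabel sg T2) (v + 1) = deg T v := by
    intro v hv
    have h1 := D3 v
    have h3 : sg v = v + 1 := by
      unfold sg
      rw [if_neg (by omega), if_neg (by omega), if_pos hv]
    rw [h3] at h1
    have h2 := D2 v
    rw [cap_deg1 v (by omega), D1lo v (by omega)] at h2
    omega
  have m5 : 5 ∈ verts T := by
    have : 5 ∈ verts cap1 := by rw [cap_verts]; simp
    obtain ⟨t, ht, hv⟩ := mem_verts.1 this
    exact mem_verts.2 ⟨t, hC ht, hv⟩
  refine ⟨relabel sg T2, relabel_isSphere sg_inj hS2, ?_, ?_, by rw [D3lo 0 (by omega), e0],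
    by rw [D3lo 1 (by omega), e1], by rw [D3lo 2 (by omega), e2], by rw [D3lo 3 (by omega), e3],
    by rw [D3lo 4 (by omega), e4], ?_, ?_⟩
  · intro t ht
    obtain ⟨s, hs, hst⟩ := Finset.mem_image.1 (cap_copy ht)
    exact Finset.mem_image.2 ⟨s, Finset.mem_union_right _ hs, hst⟩
  · have h1 := D3 6
    have h3 : sg 6 = 0 := by decide
    rw [h3] at h1
    have h2 := D2 6
    rw [D1lo 6 (by omega), hin 6 (mem_inn.2 (by omega)), cap_deg2] at h2
    omega
  · intro i hi
    have hi' := mem_inn.1 hi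
    have h1 := D3 (i + 1)
    have h3 : sg (i + 1) = i := by
      unfold sg
      rw [if_neg (by omega), if_neg (by omega), if_neg (by omega), if_pos (by omega)]
      omega
    rw [h3] at h1
    have h2 := D2 (i + 1)
    have h4 := cap_deg3 i (by omega) hi'.1
    rcases (by omega : i = 12 ∨ i < 12) with h5 | h5
    · subst h5
      rw [deg_zero h13, c1 13 (by omega)] at h2
      omega
    · rw [D1lo (i + 1) (by omega), hin (i + 1) (mem_inn.2 (by omega))] at h2
      omega
  · have hVS : verts (relabel sg T2) \ range 13 =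
        insert 13 ((verts T \ range 13).image (fun v => v + 1)) := by
      rw [relabel_verts, hV2, hV1]
      ext v
      simp only [Finset.mem_sdiff, Finset.mem_image, Finset.mem_union, Finset.mem_insert,
        Finset.mem_singleton, Finset.mem_range, not_lt]
      constructor
      · rintro ⟨⟨u, hu, rfl⟩, h1⟩
        rcases (by omega : u = 5 ∨ u ≤ 13 ∧ u ≠ 5 ∨ 14 ≤ u) with h5 | h5 | h5
        · left; subst h5; decide
        · exfalso
          unfold sg at h1
          split_ifs at h1 <;> omega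
        · right
          rw [sg_hi h5]
          rcases hu with ⟨w, hw, hwu⟩ | hu
          · unfold g1 at hwu
            split_ifs at hwu with h6
            · omega
            · exact ⟨w, ⟨hw, by omega⟩, hwu⟩
          · omega
      · rintro (rfl | ⟨w, ⟨hw, h1⟩, rfl⟩)
        · exact ⟨⟨5, Or.inl ⟨5, m5, by decide⟩, by decide⟩, by omega⟩
        · exact ⟨⟨w + 1, Or.inl ⟨w, hw, g1_hi h1⟩, sg_hi (by omega)⟩, by omega⟩
    rw [hVS, Finset.insert_val_of_notMem, Multiset.map_cons]
    · congr 1
      · have h1 := D3 5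
        have h3 : sg 5 = 13 := by decide
        rw [h3] at h1
        have h2 := D2 5
        rw [cap_deg1 5 (by omega), D1lo 5 (by omega), e5] at h2
        omega
      · rw [Finset.image_val_of_injOn (fun u _ v _ h => by simpa using h), Multiset.map_map, ← hM]
        apply Multiset.map_congr rfl
        intro v hv
        have hv' : v ∈ verts T \ range 13 := hv
        have h1 : 13 ≤ v := by
          by_contra hlt
          exact (Finset.mem_sdiff.1 hv').2 (Finset.mem_range.2 (by omega))
        exact D3hi v h1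
    · intro h
      obtain ⟨w, hw, hw'⟩ := Finset.mem_image.1 h
      have h1 : w = 12 := by simpa using hw'
      subst h1
      exact (Finset.mem_sdiff.1 hw).2 (Finset.mem_range.2 (by omega))

theorem Grow0.all {d0 d1 d2 d3 d4 d5 : ℕ} {M : Multiset ℕ}
    (h : Grow0 d0 d1 d2 d3 d4 d5 M) (k : ℕ) : ∃ c0 c1 c2 c3 c4 c5 M', Grow0 c0 c1 c2 c3 c4 c5 M' ∧
    ({c0, c1, c2, c3, c4, c5} : Multiset ℕ) + M' =
      {d0, d1, d2, d3, d4, d5} + M + Multiset.replicate k 6 := by
  induction k with
  | zero => exact ⟨_, _, _, _, _, _, _, h, by simp⟩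
  | succ k ih =>
    obtain ⟨c0, c1, c2, c3, c4, c5, M', h', e⟩ := ih
    refine ⟨6, c0, c1, c2, c3, c4, c5 ::ₘ M', h'.step, ?_⟩
    ext j
    have h2 := congrArg (Multiset.count j) e
    simp only [Multiset.insert_eq_cons, Multiset.count_add, Multiset.count_cons,
      Multiset.count_singleton, Multiset.replicate_succ] at h2 ⊢
    omega

theorem Grow0.fin {d0 d1 d2 d3 d4 d5 : ℕ} {M : Multiset ℕ}
    (h : Grow0 d0 d1 d2 d3 d4 d5 M) (k : ℕ) :
    Fin' ({d0, d1, d2, d3, d4, d5} + M + {5, 6, 5, 5, 5, 5, 5} + Multiset.replicate k 6) := by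
  obtain ⟨c0, c1, c2, c3, c4, c5, M', ⟨T, hS, hC, e0, e1, e2, e3, e4, e5, hin, hM⟩, e⟩ := h.all k
  refine ⟨T, hS, ?_⟩
  have hr : range 13 ⊆ verts T := by
    intro v hv
    rw [← cap_verts] at hv
    obtain ⟨t, ht, hv⟩ := mem_verts.1 hv
    exact mem_verts.2 ⟨t, hC ht, hv⟩
  have hV : verts T = (({0, 1, 2, 3, 4, 5} : Finset ℕ) ∪ inn) ∪ (verts T \ range 13) := by
    ext v
    simp only [Finset.mem_sdiff, Finset.mem_union, Finset.mem_insert, Finset.mem_singleton,
      Finset.mem_range, mem_inn, not_lt]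
    constructor
    · intro h1
      rcases (by omega : v < 6 ∨ (6 ≤ v ∧ v < 13) ∨ 13 ≤ v) with h | h | h
      · left; left; omega
      · left; right; exact h
      · right; exact ⟨h1, h⟩
    · rintro ((h | h) | ⟨h1, h⟩)
      · exact hr (Finset.mem_range.2 (by omega))
      · exact hr (Finset.mem_range.2 (by omega))
      · exact h1
  have hd1 : Disjoint ({0, 1, 2, 3, 4, 5} : Finset ℕ) inn := by decide
  have hd2 : Disjoint (({0, 1, 2, 3, 4, 5} : Finset ℕ) ∪ inn) (verts T \ range 13) := by
    rw [Finset.disjoint_left]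
    intro v hv hv'
    refine (Finset.mem_sdiff.1 hv').2 (Finset.mem_range.2 ?_)
    rcases Finset.mem_union.1 hv with h | h
    · simp only [Finset.mem_insert, Finset.mem_singleton] at h
      omega
    · exact (mem_inn.1 h).2
  have u1 : verts T = ((({0, 1, 2, 3, 4, 5} : Finset ℕ).disjUnion inn hd1).disjUnion
      (verts T \ range 13) (by rwa [Finset.disjUnion_eq_union])) := by
    rw [Finset.disjUnion_eq_union, Finset.disjUnion_eq_union]
    exact hV
  have u2 : (verts T).val = (({0, 1, 2, 3, 4, 5} : Finset ℕ).val + inn.val) +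
      (verts T \ range 13).val := by
    conv_lhs => rw [u1]
    rfl
  rw [u2, Multiset.map_add, Multiset.map_add, hM]
  have i1 : Multiset.map (deg T) inn.val = {5, 6, 5, 5, 5, 5, 5} := by
    rw [← inn_deg]
    exact Multiset.map_congr rfl (fun v hv => hin v hv)
  have i2 : Multiset.map (deg T) ({0, 1, 2, 3, 4, 5} : Finset ℕ).val = {c0, c1, c2, c3, c4, c5} := by
    have : ({0, 1, 2, 3, 4, 5} : Finset ℕ).val = ({0, 1, 2, 3, 4, 5} : Multiset ℕ) := by decide
    rw [this]
    simp only [Multiset.insert_eq_cons, Multiset.map_cons, Multiset.map_singleton, e0, e1, e2, e3,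
      e4, e5]
  rw [i1, i2, add_right_comm, e]
  exact add_right_comm _ _ _

end Pool.Agent.Helper79.HG
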