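import Pool.Agent.Helper79.HG.Defs

/-!
# The cap with six pentagons of the helical tube (5, 1), its extension by a hexagon, and a sphere
with the face degrees 4, 5, 4 which contains the cap
-/

namespace Pool.Agent.Helper79.HG

open Finset Pool.Agent.Helper79.HX

/-- connectedness from an ordering -/
theorem conn_of_list : ∀ L : List (Finset ℕ),
    (∀ t M, (t :: M) <:+ L → M = [] ∨ ∃ s ∈ M, (s ∩ t).card = 2) → Conn L.toFinset := by
  intro L
  induction L with
  | nil =>
    intro _ A hA hne _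
    obtain ⟨s, hs⟩ := hne
    exact absurd (hA hs) (by simp)
  | cons t M ih =>
    intro h A hA hne hcl
    rw [List.toFinset_cons] at hA hcl ⊢
    rcases h t M (List.suffix_refl _) with rfl | ⟨s, hs, hst⟩
    · obtain ⟨s, hs⟩ := hne
      have h1 := hA hs
      simp only [List.toFinset_nil, insert_empty_eq, Finset.mem_singleton] at h1 hA ⊢
      subst h1
      exact Finset.Subset.antisymm hA (by simpa using hs)
    · have ih' := ih (fun t' M' h' => h t' M' (h'.trans (List.suffix_cons _ _)))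
      have hsM : s ∈ M.toFinset := List.mem_toFinset.2 hs
      have key : M.toFinset ⊆ A := by
        have hne' : (A ∩ M.toFinset).Nonempty := by
          obtain ⟨u, hu⟩ := hne
          rcases Finset.mem_insert.1 (hA hu) with rfl | h'
          · refine ⟨s, Finset.mem_inter.2 ⟨hcl u hu s (Finset.mem_insert_of_mem hsM) ?_, hsM⟩⟩
            rw [Finset.inter_comm]; exact hst
          · exact ⟨u, Finset.mem_inter.2 ⟨hu, h'⟩⟩
        have := ih' _ Finset.inter_subset_right hne' (by
          intro u hu v hv huv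
          obtain ⟨h1, h2⟩ := Finset.mem_inter.1 hu
          exact Finset.mem_inter.2 ⟨hcl u h1 v (Finset.mem_insert_of_mem hv) huv, hv⟩)
        rw [← this]; exact Finset.inter_subset_left
      apply Finset.Subset.antisymm hA
      intro u hu
      rcases Finset.mem_insert.1 hu with rfl | h'
      · exact hcl s (key hsM) _ hu hst
      · exact key h'

/-- the same condition as a Boolean -/
def okList : List (Finset ℕ) → Bool
  | [] => true
  | t :: M => (M.isEmpty || M.any (fun s => (s ∩ t).card == 2)) && okList M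

theorem okList_spec : ∀ L : List (Finset ℕ), okList L = true →
    ∀ t M, (t :: M) <:+ L → M = [] ∨ ∃ s ∈ M, (s ∩ t).card = 2 := by
  intro L
  induction L with
  | nil => intro _ t M h; simp at h
  | cons u L ih =>
    intro h t M h'
    rw [okList, Bool.and_eq_true, Bool.or_eq_true] at h
    rcases List.suffix_cons_iff.1 h' with h1 | h1
    · obtain ⟨rfl, rfl⟩ := List.cons.inj h1
      rcases h.1 with h2 | h2
      · left; simpa using h2
      · right
        obtain ⟨s, hs, h3⟩ := List.any_eq_true.1 h2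
        exact ⟨s, hs, by simpa using h3⟩
    · exact ih h.2 t M h1

theorem conn_of_ok {L : List (Finset ℕ)} (h : okList L = true) : Conn L.toFinset :=
  conn_of_list L (okList_spec L h)

/-- the cap: boundary 0, ..., 5 -/
def capL : List (Finset ℕ) :=
  [{0, 9, 12}, {0, 1, 12}, {1, 11, 12}, {10, 11, 12}, {9, 10, 12}, {8, 10, 11}, {1, 2, 11}, {2,
   8, 11}, {7, 8, 10}, {7, 9, 10}, {6, 7, 9}, {0, 6, 9}, {2, 3, 8}, {3, 7, 8}, {3, 4, 7}, {4, 6,
   7}, {0, 5, 6}, {4, 5, 6}]

def cap1 : Finset (Finset ℕ) := capL.toFinset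

/-- the cap with one more hexagon -/
def cap2L : List (Finset ℕ) :=
  [{6, 10, 13}, {0, 6, 13}, {0, 12, 13}, {11, 12, 13}, {10, 11, 13}, {9, 11, 12}, {0, 1, 12},
   {1, 9, 12}, {8, 9, 11}, {8, 10, 11}, {7, 8, 10}, {6, 7, 10}, {1, 2, 9}, {2, 8, 9}, {2, 3, 8},
   {3, 7, 8}, {3, 4, 7}, {4, 6, 7}, {0, 5, 6}, {4, 5, 6}]

def cap2 : Finset (Finset ℕ) := cap2L.toFinset

/-- the sphere -/
def seedL : List (Finset ℕ) :=
  [{13, 14, 15}, {0, 9, 12}, {0, 1, 12}, {1, 11, 12}, {10, 11, 12}, {9, 10, 12}, {8, 10, 11},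
   {1, 2, 11}, {2, 8, 11}, {7, 8, 10}, {7, 9, 10}, {6, 7, 9}, {0, 6, 9}, {3, 7, 8}, {2, 3, 8},
   {0, 1, 5}, {0, 5, 6}, {4, 6, 7}, {3, 4, 7}, {4, 5, 6}, {1, 5, 19}, {1, 2, 19}, {2, 3, 17},
   {2, 17, 19}, {4, 5, 18}, {5, 18, 19}, {3, 4, 16}, {3, 16, 17}, {4, 16, 18}, {14, 18, 19},
   {14, 17, 19}, {13, 14, 18}, {13, 16, 18}, {14, 15, 17}, {15, 16, 17}, {13, 15, 16}]

def seed : Finset (Finset ℕ) := seedL.toFinset

end Pool.Agent.Helper79.HG
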