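import Pool.Agent.Helper79.HG.Lit

/-!
# The finite checks
-/

namespace Pool.Agent.Helper79.HG

open Finset Pool.Agent.Helper79.HX

/-- the interior vertices of the cap -/
def inn : Finset ℕ := {6, 7, 8, 9, 10, 11, 12}

set_option maxRecDepth 100000 in
theorem capPatch : Patch cap1 cap2 {13} inn where
  ne := ⟨{4, 5, 6}, by decide⟩
  tri := by decide
  vert := by decide
  edge := by
    unfold cnt
    decide
  bdry := by
    unfold cnt
    decide
  new := by
    unfold cnt
    decide
  conn := conn_of_ok (by decide)
  card := by decide

set_option maxRecDepth 100000 in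
theorem seed_sphere : IsSphere seed := by
  refine ⟨⟨{13, 14, 15}, by decide⟩, by decide, ?_, ?_, by decide⟩
  · have h : ∀ t ∈ seed, ∀ e ∈ t.powersetCard 2, (seed.filter (fun s => e ⊆ s)).card = 2 := by
      decide
    intro t ht e het he
    exact h t ht e (Finset.mem_powersetCard.2 ⟨het, he⟩)
  · exact conn_of_ok (by decide)

/-- relabelling which maps the copy of the cap in the extended cap to the cap -/
def sg (v : ℕ) : ℕ := if v = 5 then 13 else if v = 6 then 0 else if v < 5 then v + 1 else
  if v ≤ 13 then v - 1 else v

theorem sg_inj : Function.Injective sg := by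
  intro u v h
  unfold sg at h
  split_ifs at h <;> omega

set_option maxRecDepth 100000 in
theorem cap_copy : cap1 ⊆ relabel sg cap2 := by
  unfold relabel
  decide

set_option maxRecDepth 100000 in
theorem cap_deg1 : ∀ i < 6, deg cap2 i = deg cap1 i := by
  unfold deg
  decide

set_option maxRecDepth 100000 in
theorem cap_deg2 : deg cap2 6 = 6 := by
  unfold deg
  decide

set_option maxRecDepth 100000 in
theorem cap_deg3 : ∀ i < 13, 6 ≤ i → deg cap2 (i + 1) = deg cap1 i := by
  unfold deg
  decide

set_option maxRecDepth 100000 in
theorem cap_verts : verts cap1 = range 13 := by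
  decide

set_option maxRecDepth 100000 in
theorem cap_verts2 : verts cap2 = range 14 := by
  decide

set_option maxRecDepth 100000 in
theorem inn_deg : inn.val.map (deg cap1) = {5, 6, 5, 5, 5, 5, 5} := by
  unfold deg
  decide

end Pool.Agent.Helper79.HG
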