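import Pool.Agent.Helper79.HG.Grow0

/-!
# Finite checks
-/

namespace Pool.Agent.Helper79.HG

open Finset Pool.Agent.Helper79.HX

theorem sphere_of {L : List (Finset ℕ)} (h1 : L.isEmpty = false)
    (h2 : ∀ t ∈ L.toFinset, t.card = 3)
    (h3 : ∀ t ∈ L.toFinset, ∀ e ∈ t.powersetCard 2,
      (L.toFinset.filter (fun s => e ⊆ s)).card = 2)
    (h4 : okList L = true) (h5 : 2 * (verts L.toFinset).card = L.toFinset.card + 4) :
    IsSphere L.toFinset := by
  refine ⟨?_, h2, ?_, conn_of_ok h4, h5⟩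
  · cases L with
    | nil => simp at h1
    | cons t L => exact ⟨t, by simp⟩
  · intro t ht e het he
    exact h3 t ht e (Finset.mem_powersetCard.2 ⟨het, he⟩)

end Pool.Agent.Helper79.HG
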